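import Mathlib

/-! Stacked contractions in the random ordering of the `d`-simplices on `n` vertices. -/

namespace Pool.Agent.MP_8f9e6e_pr

/-- The `d`-simplices: the `(d+1)`-element subsets of the `n` labels. -/
abbrev Face (n d : ℕ) : Type := {s : Finset (Fin n) // s.card = d + 1}

/-- The closure of the family `S` under the rule: add the `(d+1)`-set `g` whenever for some label
`u` all the sets obtained from `g` by replacing one element with `u` are present. -/
inductive Contr {n : ℕ} (d : ℕ) (S : Set (Finset (Fin n))) : Finset (Fin n) → Prop
  | base (f : Finset (Fin n)) : f ∈ S → Contr d S f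
  | step (g : Finset (Fin n)) (u : Fin n) : g.card = d + 1 →
      (∀ w ∈ g, Contr d S (insert u (g.erase w))) → Contr d S g

/-- Orderings of the simplices. -/
abbrev Ord (n d : ℕ) : Type := Fin (n.choose (d + 1)) ≃ Face n d

/-- The first `t` simplices of the ordering. -/
def first {n d : ℕ} (π : Ord n d) (t : ℕ) : Set (Finset (Fin n)) :=
  {f | ∃ i : Fin (n.choose (d + 1)), (i : ℕ) < t ∧ (π i).1 = f}

/-- The fraction of simplices that have a stacked contraction in the first `t` simplices. -/
noncomputable def frac {n d : ℕ} (π : Ord n d) (t : ℕ) : ℝ :=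
  (Set.ncard {f : Face n d | Contr d (first π t) f.1} : ℝ) / (n.choose (d + 1) : ℝ)

/-- The probability of an event under the uniformly random ordering. -/
noncomputable def prob {n d : ℕ} (E : Set (Ord n d)) : ℝ :=
  (Set.ncard E : ℝ) / (Nat.card (Ord n d) : ℝ)

end Pool.Agent.MP_8f9e6e_pr
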