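import Pool.Agent.MP_8f9e6e_pr.Mg.Main

attribute [-instance] IdemSemiring.toCanonicallyOrderedAdd AddQuantale.instAddLeftMono
  IdemSemiring.toMulLeftMono IsOrderedMonoid.toMulLeftMono AddQuantale.instAddRightMono
  RKHS.instFunLike IdemSemiring.toMulRightMono Quantale.instMulLeftMono NumberField.to_charZero
  Pi.instNonempty Quantale.instMulRightMono CanonicallyOrderedAdd.toMulLeftMono
  instCoeHTCOfCoeHeadOfCoeOTC instCoeHTCTOfCoeTailOfCoeHTC RCLike.charZero_rclike
  Group.IsPerfect.subsingleton_of_isMulCommutative instCoeTCOfCoe CompletePartialOrder.toPartialOrder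
  List.instDecidableMemOfLawfulBEq instCoeTOfCoeDep
  IsRightCancelMul.mulRightStrictMono_of_mulRightMono
  ContinuousMonoidHom.instCoeOutOfMonoidHomClassOfContinuousMapClass instCoeOutOfCoeFun NeZero.of_gt'
  LieAdmissibleAlgebra.toModule CanonicallyOrderedMul.toMulLeftMono RightPreLieAlgebra.toModule
  LeftPreLieAlgebra.toModule Multiset.decidableDforallMultiset littleWedderburn
  covariant_lt_of_contravariant_le Vector.instDecidableForallForallMemOfDecidablePred
  Invertible.toNeZero Torsor.toMulAction Array.instDecidableForallForallMemOfDecidablePred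
  Option.decidableForallMem CStarAlgebra.instOrderClosedTopology LinearOrder.toDecidableEq
  AddSubmonoidClass.toZeroMemClass IsOrderedAddMonoid.toAddRightMono

-- part Cell
section

/-! The number of full cells on a tower is bounded through the excess of the rank. -/

open Finset

namespace Pool.Agent.MP_8f9e6e_pr

variable {n d : ℕ}

theorem level' (hd : 2 ≤ d) (M : Submodule (ZMod 2) (Finset (Fin n) → ZMod 2))
    {B g : Finset (Fin n)} {u : Fin n} (h1 : g ⊆ B) (h2 : g.card = d + 1) (h3 : u ∉ B)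
    (h4 : ∀ w ∈ g, bd d (insert u (g.erase w)) ∈ M) :
    ∃ Y ⊆ (insert u B).powersetCard (d + 1),
      Module.finrank (ZMod 2) (M ⊓ supp B : Submodule _ _) + d + Y.card ≤
        Module.finrank (ZMod 2) (M ⊓ supp (insert u B) : Submodule _ _) ∧
      ∀ x ⊆ insert u B, x.card = d + 1 → u ∈ x → bd d x ∈ M →
        ∀ a ∈ x, a ∉ insert u g → ∃ y ∈ Y, a ∈ y := by
  classical
  obtain ⟨v, hv⟩ := Finset.card_pos.1 (show 0 < g.card by omega)
  have hu : u ∉ g := fun h => h3 (h1 h)
  have e0 := rank_step (M ⊓ supp B) (fun w => bd d (insert u (g.erase w)))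
    (fun w => insert u ((g.erase w).erase v)) (g.erase v)
    (fun w _ y hy => hy.2 _ fun h => h3 (h (Finset.mem_insert_self _ _)))
    (fun w hw => by
      obtain ⟨a1, a2⟩ := Finset.mem_erase.1 hw
      rw [bd, if_pos ⟨Finset.insert_subset_insert _ (Finset.erase_subset _ _), by
        rw [Finset.card_insert_of_notMem (by simp [hu]),
          Finset.card_erase_add_one (Finset.mem_erase.2 ⟨a1.symm, hv⟩),
          Finset.card_erase_of_mem a2, h2]; rfl⟩]
      exact one_ne_zero)
    (fun w _ w' hw' hne => if_neg fun h => by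
      obtain ⟨a1, a2⟩ := Finset.mem_erase.1 hw'
      have := h.1 (Finset.mem_insert_of_mem (Finset.mem_erase.2 ⟨a1, Finset.mem_erase.2 ⟨hne, a2⟩⟩))
      simp [ne_of_mem_of_not_mem a2 hu] at this)
  rw [Finset.card_erase_of_mem hv, h2] at e0
  let Z : Finset (Finset (Fin n)) → Submodule (ZMod 2) (Finset (Fin n) → ZMod 2) := fun Y =>
    ⨅ r ∈ {r | u ∈ r ∧ ¬ r ⊆ insert u g ∧ ∀ y ∈ Y, ¬ r ⊆ y}, LinearMap.ker (LinearMap.proj r)
  have mZ : ∀ Y y, y ∈ Z Y ↔ ∀ r, u ∈ r → ¬ r ⊆ insert u g → (∀ y ∈ Y, ¬ r ⊆ y) → y r = 0 := by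
    simp only [Z, Set.mem_ofPred_eq, Submodule.mem_iInf, LinearMap.mem_ker, LinearMap.coe_proj, Function.eval, and_imp, implies_true]
  obtain ⟨Y, hY, hmax⟩ := Finset.exists_max_image
    (((insert u B).powersetCard (d + 1)).powerset.filter fun Y =>
      Module.finrank (ZMod 2) (M ⊓ supp B : Submodule _ _) + d + Y.card ≤
        Module.finrank (ZMod 2) (M ⊓ supp (insert u B) ⊓ Z Y : Submodule _ _)) Finset.card
    ⟨∅, Finset.mem_filter.2 ⟨by simp, e0.trans (Submodule.finrank_mono (sup_le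
      (fun y hy => ⟨⟨hy.1, fun r hr => hy.2 r fun h => hr (h.trans (Finset.subset_insert _ _))⟩,
        (mZ _ _).2 fun r a1 _ _ => hy.2 r fun h => h3 (h a1)⟩)
      (Submodule.span_le.2 (by
        rintro _ ⟨w, hw, rfl⟩
        exact ⟨⟨h4 w (Finset.mem_of_mem_erase hw),
          bd_supp (Finset.insert_subset_insert _ ((Finset.erase_subset _ _).trans h1))⟩,
          (mZ _ _).2 fun r _ a2 _ => bd_supp
            (Finset.insert_subset_insert _ (Finset.erase_subset _ _)) r a2⟩))))⟩⟩
  simp only [Finset.mem_filter, Finset.mem_powerset] at hY hmax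
  obtain ⟨y1, y3⟩ := hY
  refine ⟨Y, y1, y3.trans (Submodule.finrank_mono inf_le_left), fun x x1 x2 x3 x4 a ha hag => ?_⟩
  obtain ⟨b, hb, hb'⟩ := Finset.exists_mem_notMem_of_card_lt_card (s := {u, a}) (t := x)
    (Finset.card_le_two.trans_lt (by omega))
  simp only [Finset.mem_insert, Finset.mem_singleton, not_or] at hb'
  have r1 : (x.erase b).card = d := by rw [Finset.card_erase_of_mem hb, x2]; rfl
  by_contra hno
  have r2 : ∀ y ∈ Y, ¬ x.erase b ⊆ y := fun y hy h =>
    hno ⟨y, hy, h (Finset.mem_erase.2 ⟨Ne.symm hb'.2, ha⟩)⟩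
  have r3 : x ∉ Y := fun h => r2 x h (Finset.erase_subset _ _)
  have r4 := (rank_step (M ⊓ supp (insert u B) ⊓ Z Y) (fun _ : Unit => bd d x)
    (fun _ => x.erase b) {()} (fun _ _ y hy => (mZ _ _).1 hy.2 _
      (Finset.mem_erase.2 ⟨Ne.symm hb'.1, x3⟩)
      (fun h => hag (h (Finset.mem_erase.2 ⟨Ne.symm hb'.2, ha⟩))) r2)
    (by simp only [mem_singleton, bd, erase_subset, r1, and_self, ↓ reduceIte, ne_eq, one_ne_zero, not_false_eq_true, imp_self, implies_true]) (by simp only [mem_singleton, ne_eq, not_true_eq_false, IsEmpty.forall_iff, imp_self, implies_true])).trans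
    (Submodule.finrank_mono (t := M ⊓ supp (insert u B) ⊓ Z (insert x Y)) (sup_le
      (inf_le_inf_left _ fun y hy => (mZ _ _).2 fun r a1 a2 a3 => (mZ _ _).1 hy r a1 a2
        fun y hy => a3 y (Finset.mem_insert_of_mem hy))
      (Submodule.span_le.2 (by
        rintro _ ⟨_, -, rfl⟩
        exact ⟨⟨x4, bd_supp x1⟩, (mZ _ _).2 fun r _ _ a3 =>
          bd_supp le_rfl r (a3 x (Finset.mem_insert_self _ _))⟩))))
  have r5 := hmax (insert x Y) ⟨Finset.insert_subset (Finset.mem_powersetCard.2 ⟨x1, x2⟩) y1, by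
      rw [Finset.card_insert_of_notMem r3]
      simp only [Finset.card_singleton] at r4
      omega⟩
  rw [Finset.card_insert_of_notMem r3] at r5
  omega

open Classical in
/-- Cells all of whose faces have their boundary in `M`. -/
noncomputable def full (d : ℕ) (M : Submodule (ZMod 2) (Finset (Fin n) → ZMod 2))
    (B : Finset (Fin n)) : Finset (Finset (Fin n)) :=
  (B.powersetCard (d + 2)).filter fun σ => ∀ w ∈ σ, bd d (σ.erase w) ∈ M

theorem mem_full {M : Submodule (ZMod 2) (Finset (Fin n) → ZMod 2)} {B σ : Finset (Fin n)} :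
    σ ∈ full d M B ↔ (σ ⊆ B ∧ σ.card = d + 2) ∧ ∀ w ∈ σ, bd d (σ.erase w) ∈ M := by
  simp only [full, mem_filter, mem_powersetCard]

theorem Tow.cells (hd : 2 ≤ d) (M : Submodule (ZMod 2) (Finset (Fin n) → ZMod 2))
    {C : Finset (Fin n) → Prop} {f B : Finset (Fin n)}
    (hM : ∀ g, C g → bd d g ∈ M) (hf : f.card = d + 1) (hC : C f) (hB : Tow d C f B) :
    ∃ y : ℕ, 1 + d * B.card + y ≤
        Module.finrank (ZMod 2) (M ⊓ supp B : Submodule _ _) + d * (d + 1) ∧
      (full d M B).card + (d + 1) ≤ B.card + ((2 * d + 3) * y) ^ (d + 2) := by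
  induction hB with
  | base =>
    refine ⟨0, Tow.rank (by omega) M hM hf hC .base, ?_⟩
    have : full d M f = ∅ := Finset.eq_empty_of_forall_notMem fun σ hσ => by
      have := Finset.card_le_card (mem_full.1 hσ).1.1
      have := (mem_full.1 hσ).1.2
      omega
    rw [this]
    simp [hf]
  | step B g u hT h1 h2 h3 h4 ih =>
    obtain ⟨y, a1, a2⟩ := ih
    obtain ⟨Y, hY, b2, b3⟩ := level' hd M h1 h2 h3 fun w hw => hM _ (h4 w hw)
    have hc := Finset.card_insert_of_notMem h3
    have hu : u ∉ g := fun h => h3 (h1 h)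
    refine ⟨y + Y.card, by rw [hc, mul_add]; omega, ?_⟩
    have s1 : full d M (insert u B) ⊆
        full d M B ∪ (insert u g ∪ Y.biUnion id).powersetCard (d + 2) := by
      intro σ hσ
      obtain ⟨⟨c1, c2⟩, c3⟩ := mem_full.1 hσ
      by_cases hσu : u ∈ σ
      · refine Finset.mem_union_right _ (Finset.mem_powersetCard.2 ⟨fun a ha => ?_, c2⟩)
        by_cases hag : a ∈ insert u g
        · exact Finset.mem_union_left _ hag
        obtain ⟨w, hw, hw'⟩ := Finset.exists_mem_notMem_of_card_lt_card (s := {u, a}) (t := σ)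
          (Finset.card_le_two.trans_lt (by omega))
        simp only [Finset.mem_insert, Finset.mem_singleton, not_or] at hw'
        obtain ⟨y, hy, hy'⟩ := b3 (σ.erase w) ((Finset.erase_subset _ _).trans c1)
          (by rw [Finset.card_erase_of_mem hw, c2]; rfl)
          (Finset.mem_erase.2 ⟨Ne.symm hw'.1, hσu⟩) (c3 w hw) a
          (Finset.mem_erase.2 ⟨Ne.symm hw'.2, ha⟩) hag
        exact Finset.mem_union_right _ (Finset.mem_biUnion.2 ⟨y, hy, hy'⟩)
      · exact Finset.mem_union_left _ (mem_full.2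
          ⟨⟨(Finset.subset_insert_iff_of_notMem hσu).1 c1, c2⟩, c3⟩)
    have s2 : ((insert u g ∪ Y.biUnion id).powersetCard (d + 2)).card ≤
        1 + ((2 * d + 3) * Y.card) ^ (d + 2) := by
      rw [Finset.card_powersetCard]
      rcases Y.eq_empty_or_nonempty with rfl | hne
      · simp [Finset.card_insert_of_notMem hu, h2]
      · have e1 := Finset.card_pos.2 hne
        have e2 := Finset.card_biUnion_le_card_mul Y id (d + 1) fun y hy =>
          (Finset.mem_powersetCard.1 (hY hy)).2.le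
        have e3 := Finset.card_union_le (insert u g) (Y.biUnion id)
        rw [Finset.card_insert_of_notMem hu, h2] at e3
        refine (Nat.choose_le_pow _ _).trans ((Nat.pow_le_pow_left ?_ _).trans (Nat.le_add_left _ _))
        nlinarith only [e1, e2, e3]
    have s3 := (Finset.card_le_card s1).trans (Finset.card_union_le _ _)
    have s4 := pow_add_pow_le (Nat.zero_le ((2 * d + 3) * y)) (Nat.zero_le ((2 * d + 3) * Y.card))
      (show d + 2 ≠ 0 by omega)
    rw [hc, mul_add]
    omega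

end Pool.Agent.MP_8f9e6e_pr

end

-- part Run
section

/-! The exploration of a derivation and its generating function. -/

open Finset

namespace Pool.Agent.MP_8f9e6e_pr

variable {n d : ℕ}

/-- The list of the faces that replace `x`. -/
noncomputable def chs (d : ℕ) (x : Finset (Fin n)) (u : Fin n) : List (Finset (Fin n)) :=
  if x.card = d + 1 then x.toList.map fun w => insert u (x.erase w) else List.replicate (d + 1) ∅

theorem length_chs (x : Finset (Fin n)) (u : Fin n) : (chs d x u).length = d + 1 := by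
  unfold chs
  split_ifs with h <;> simp [*]

theorem mem_chs {x y : Finset (Fin n)} {u : Fin n} (h : x.card = d + 1) :
    y ∈ chs d x u ↔ ∃ w ∈ x, insert u (x.erase w) = y := by
  simp only [chs, h, Nat.add_left_cancel_iff, ↓ reduceIte, List.mem_map, mem_toList]

/-- Sources, new apexes, old apexes, repeated faces. -/
abbrev Out (n : ℕ) : Type := Finset (Finset (Fin n)) × ℕ × ℕ × ℕ

/-- The outcomes of the exploration. -/
noncomputable def out (d K : ℕ) : ℕ → List (Finset (Fin n)) → Finset (Fin n) → Multiset (Out n)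
  | _, [], _ => {(∅, 0, 0, 0)}
  | 0, _ :: _, _ => 0
  | N + 1, x :: F, B =>
    ((out d K N F B).filter fun o => x ∉ o.1).map (fun o => (insert x o.1, o.2)) +
    (out d K N F B).map (fun o => (o.1, o.2.1, o.2.2.1, o.2.2.2 + 1)) +
    (if B.card < K then Bᶜ.val.bind fun u => (out d K N (chs d x u ++ F) (insert u B)).map
      fun o => (o.1, o.2.1 + 1, o.2.2) else 0) +
    B.val.bind fun u => (out d K N (chs d x u ++ F) B).map
      fun o => (o.1, o.2.1, o.2.2.1 + 1, o.2.2.2)

/-- The weight of an outcome. -/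
def ww (p θ a b : ℝ) (o : Out n) : ℝ := p ^ o.1.card * θ ^ o.2.1 * a ^ o.2.2.1 * b ^ o.2.2.2

theorem out_wt {K : ℕ} {p θ a b x : ℝ} (hp : 0 ≤ p) (hθ : 0 ≤ θ) (ha : 0 ≤ a) (hb : 0 ≤ b)
    (hx : 0 ≤ x) (h : p + b + (n * θ + K * a) * x ^ (d + 1) ≤ x) (N : ℕ) :
    ∀ (F : List (Finset (Fin n))) (B : Finset (Fin n)), B.card ≤ K →
      ((out d K N F B).map (ww p θ a b)).sum ≤ x ^ F.length := by
  have w0 : ∀ o : Out n, 0 ≤ ww p θ a b o := fun o => by unfold ww; positivity
  induction N with
  | zero =>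
    intro F B _
    cases F with
    | nil => simp [out, ww]
    | cons y F => simp only [out, Multiset.map_zero, Multiset.sum_zero]; positivity
  | succ N ih =>
    intro F B hB
    cases F with
    | nil => simp [out, ww]
    | cons y F =>
      have e1 : ((((out d K N F B).filter fun o => y ∉ o.1).map
          (fun o => (insert y o.1, o.2))).map (ww p θ a b)).sum ≤ p * x ^ F.length := by
        rw [Multiset.map_map, Multiset.map_congr rfl (g := fun o => p * ww p θ a b o)
          fun o ho => by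
            simp only [Function.comp, ww,
              Finset.card_insert_of_notMem (Multiset.mem_filter.1 ho).2]
            ring, Multiset.sum_map_mul_left]
        refine mul_le_mul_of_nonneg_left (le_trans ?_ (ih F B hB)) hp
        conv_rhs => rw [← Multiset.filter_add_not (fun o : Out n => y ∉ o.1) (out d K N F B)]
        rw [Multiset.map_add, Multiset.sum_add]
        exact le_add_of_nonneg_right (Multiset.sum_nonneg fun r hr => by
          obtain ⟨o, -, rfl⟩ := Multiset.mem_map.1 hr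
          exact w0 o)
      have e2 : (((out d K N F B).map (fun o => (o.1, o.2.1, o.2.2.1, o.2.2.2 + 1))).map
          (ww p θ a b)).sum ≤ b * x ^ F.length := by
        rw [Multiset.map_map, Multiset.map_congr rfl (g := fun o => b * ww p θ a b o)
          fun o _ => by simp only [Function.comp, ww]; ring, Multiset.sum_map_mul_left]
        exact mul_le_mul_of_nonneg_left (ih F B hB) hb
      have e3 : ((if B.card < K then Bᶜ.val.bind fun u =>
          (out d K N (chs d y u ++ F) (insert u B)).map fun o => (o.1, o.2.1 + 1, o.2.2)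
          else 0).map (ww p θ a b)).sum ≤ n * (θ * (x ^ (d + 1) * x ^ F.length)) := by
        split_ifs with hK
        · rw [Multiset.map_bind, Multiset.sum_bind, ← Finset.sum_eq_multiset_sum]
          refine (Finset.sum_le_card_nsmul _ _ (θ * (x ^ (d + 1) * x ^ F.length))
            fun u _ => ?_).trans ?_
          · rw [Multiset.map_map, Multiset.map_congr rfl (g := fun o => θ * ww p θ a b o)
              fun o _ => by simp only [Function.comp, ww]; ring, Multiset.sum_map_mul_left]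
            refine mul_le_mul_of_nonneg_left ((ih _ _
              ((Finset.card_insert_le _ _).trans hK)).trans_eq ?_) hθ
            rw [List.length_append, length_chs, pow_add]
          · rw [nsmul_eq_mul]
            have : (Bᶜ.card : ℝ) ≤ n := by exact_mod_cast (by simpa only [Fintype.card_fin] using Bᶜ.card_le_univ)
            gcongr
        · simp only [Multiset.map_zero, Multiset.sum_zero]
          positivity
      have e4 : ((B.val.bind fun u => (out d K N (chs d y u ++ F) B).map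
          fun o => (o.1, o.2.1, o.2.2.1 + 1, o.2.2.2)).map (ww p θ a b)).sum ≤
          K * (a * (x ^ (d + 1) * x ^ F.length)) := by
        rw [Multiset.map_bind, Multiset.sum_bind, ← Finset.sum_eq_multiset_sum]
        refine (Finset.sum_le_card_nsmul _ _ (a * (x ^ (d + 1) * x ^ F.length))
          fun u _ => ?_).trans ?_
        · rw [Multiset.map_map, Multiset.map_congr rfl (g := fun o => a * ww p θ a b o)
            fun o _ => by simp only [Function.comp, ww]; ring, Multiset.sum_map_mul_left]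
          refine mul_le_mul_of_nonneg_left ((ih _ _ hB).trans_eq ?_) ha
          rw [List.length_append, length_chs, pow_add]
        · rw [nsmul_eq_mul]
          have : (B.card : ℝ) ≤ K := by exact_mod_cast hB
          gcongr
      simp only [out, Multiset.map_add, Multiset.sum_add, List.length_cons]
      have := mul_le_mul_of_nonneg_right h (pow_nonneg hx F.length)
      rw [pow_succ' x F.length]
      linarith only [e1, e2, e3, e4, this]

open Classical in
theorem out_exists {K : ℕ} {S : Set (Finset (Fin n))} {a : Finset (Fin n) → Fin n}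
    {D : Finset (Finset (Fin n))} {g : Finset (Fin n)}
    (hD : ∀ x ∈ D, x.card = d + 1 ∧ (x ∉ S → ∀ w ∈ x, insert (a x) (x.erase w) ∈ D))
    (hm : ∀ Q : Finset (Finset (Fin n)), g ∈ Q →
      (∀ x ∈ Q, x ∉ S → ∀ w ∈ x, insert (a x) (x.erase w) ∈ Q) → D ⊆ Q)
    (hK : (D.biUnion id).card ≤ K) (N : ℕ) :
    ∀ (F : List (Finset (Fin n))) (B : Finset (Fin n)) (P : Finset (Finset (Fin n))),
      (d + 2) * (D \ P).card + F.length ≤ N → (∀ x ∈ F, x ∈ D) → B ⊆ D.biUnion id →
      (∀ x ∈ P, x ∉ S → ∀ w ∈ x, insert (a x) (x.erase w) ∈ P ∨ insert (a x) (x.erase w) ∈ F) →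
      (g ∈ P ∨ g ∈ F) → (∀ x, x ∈ P ∨ x ∈ F → x ⊆ B) →
      ∃ o ∈ out d K N F B, o.1 = (D \ P).filter (· ∈ S) ∧ B.card + o.2.1 = (D.biUnion id).card ∧
        o.2.1 + o.2.2.1 = ((D \ P).filter (· ∉ S)).card ∧
        o.1.card + (o.2.1 + o.2.2.1) + o.2.2.2 = F.length + (d + 1) * (o.2.1 + o.2.2.1) := by
  have nil : ∀ (N : ℕ) (B : Finset (Fin n)) (P : Finset (Finset (Fin n))), B ⊆ D.biUnion id →
      (∀ x ∈ P, x ∉ S → ∀ w ∈ x, insert (a x) (x.erase w) ∈ P ∨
        insert (a x) (x.erase w) ∈ ([] : List (Finset (Fin n)))) →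
      (g ∈ P ∨ g ∈ ([] : List (Finset (Fin n)))) →
      (∀ x, x ∈ P ∨ x ∈ ([] : List (Finset (Fin n))) → x ⊆ B) →
      ∃ o ∈ out d K N [] B, o.1 = (D \ P).filter (· ∈ S) ∧ B.card + o.2.1 = (D.biUnion id).card ∧
        o.2.1 + o.2.2.1 = ((D \ P).filter (· ∉ S)).card ∧
        o.1.card + (o.2.1 + o.2.2.1) + o.2.2.2 =
          ([] : List (Finset (Fin n))).length + (d + 1) * (o.2.1 + o.2.2.1) := by
    intro N B P h1 h2 h3 h4
    have e1 : D ⊆ P := hm P (by simpa using h3) (by simpa only [List.not_mem_nil, or_false] using h2)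
    have e2 : B = D.biUnion id := h1.antisymm
      (Finset.biUnion_subset.2 fun x hx => h4 x (Or.inl (e1 hx)))
    refine ⟨(∅, 0, 0, 0), by cases N <;> simp [out], ?_⟩
    simp [Finset.sdiff_eq_empty_iff_subset.2 e1, e2]
  induction N with
  | zero =>
    intro F B P h0 _ h2 h3 h4 h5
    cases F with
    | nil => exact nil 0 B P h2 h3 h4 h5
    | cons x F => simp at h0
  | succ N ih =>
    intro F B P h0 h1 h2 h3 h4 h5
    cases F with
    | nil => exact nil _ B P h2 h3 h4 h5
    | cons x F =>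
      rw [List.length_cons] at h0
      have xD := h1 x (by simp)
      by_cases hx : x ∈ P
      · obtain ⟨o, o1, o2, o3, o4, o5⟩ := ih F B P (by omega) (fun y hy => h1 y (by simp [hy])) h2
          (fun y hy hy' w hw => (h3 y hy hy' w hw).elim Or.inl fun h => by
            rcases List.mem_cons.1 h with h | h
            · exact Or.inl (h ▸ hx)
            · exact Or.inr h)
          (h4.elim Or.inl fun h => by
            rcases List.mem_cons.1 h with h | h
            · exact Or.inl (h ▸ hx)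
            · exact Or.inr h)
          fun y hy => h5 y (hy.imp_right fun h => by simp [h])
        refine ⟨(o.1, o.2.1, o.2.2.1, o.2.2.2 + 1), ?_, o2, o3, o4, ?_⟩
        · simp only [out, Multiset.mem_add, Multiset.mem_map]
          exact Or.inl (Or.inl (Or.inr ⟨o, o1, rfl⟩))
        · simp only [List.length_cons]
          omega
      have s1 : D \ P = insert x (D \ insert x P) := by
        ext y
        simp only [Finset.mem_sdiff, Finset.mem_insert]
        by_cases hy : y = x <;> simp [hy, xD, hx]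
      have s2 : x ∉ D \ insert x P := by simp
      have s3 : (D \ P).card = (D \ insert x P).card + 1 := by
        rw [s1, Finset.card_insert_of_notMem s2]
      rw [s3, mul_add] at h0
      by_cases hS : x ∈ S
      · obtain ⟨o, o1, o2, o3, o4, o5⟩ := ih F B (insert x P) (by omega)
          (fun y hy => h1 y (by simp [hy])) h2
          (fun y hy hy' w hw => by
            rcases Finset.mem_insert.1 hy with rfl | hy
            · exact absurd hS hy'
            · have := h3 y hy hy' w hw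
              simp only [List.mem_cons, Finset.mem_insert] at this ⊢
              tauto)
          (by simp only [List.mem_cons, Finset.mem_insert] at h4 ⊢; tauto)
          fun y hy => h5 y (by simp only [List.mem_cons, Finset.mem_insert] at hy ⊢; tauto)
        have s4 : x ∉ o.1 := by rw [o2]; simp
        refine ⟨(insert x o.1, o.2), ?_, ?_, o3, ?_, ?_⟩
        · simp only [out, Multiset.mem_add, Multiset.mem_map, Multiset.mem_filter]
          exact Or.inl (Or.inl (Or.inl ⟨o, ⟨o1, s4⟩, rfl⟩))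
        · rw [s1, Finset.filter_insert, if_pos hS, o2]
        · rw [s1, Finset.filter_insert, if_neg (not_not.2 hS), o4]
        · simp only [List.length_cons, Finset.card_insert_of_notMem s4]
          omega
      obtain ⟨c1, c2⟩ := hD x xD
      obtain ⟨v, hv⟩ := Finset.card_pos.1 (show 0 < x.card by omega)
      have c3 : a x ∈ D.biUnion id :=
        Finset.mem_biUnion.2 ⟨_, c2 hS v hv, Finset.mem_insert_self _ _⟩
      have c4 : x ⊆ B := h5 x (by simp)
      obtain ⟨o, o1, o2, o3, o4, o5⟩ := ih (chs d x (a x) ++ F) (insert (a x) B) (insert x P)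
        (by rw [List.length_append, length_chs]; omega)
        (fun y hy => by
          rcases List.mem_append.1 hy with h | h
          · obtain ⟨w, hw, rfl⟩ := (mem_chs c1).1 h
            exact c2 hS w hw
          · exact h1 y (by simp [h]))
        (Finset.insert_subset c3 h2)
        (fun y hy hy' w hw => by
          rcases Finset.mem_insert.1 hy with rfl | hy
          · exact Or.inr (List.mem_append_left _ ((mem_chs c1).2 ⟨w, hw, rfl⟩))
          · have := h3 y hy hy' w hw
            simp only [List.mem_cons, Finset.mem_insert, List.mem_append] at this ⊢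
            tauto)
        (by simp only [List.mem_cons, Finset.mem_insert, List.mem_append] at h4 ⊢; tauto)
        fun y hy => by
          simp only [Finset.mem_insert, List.mem_append] at hy
          rcases hy with (rfl | h) | h | h
          · exact c4.trans (Finset.subset_insert _ _)
          · exact (h5 y (Or.inl h)).trans (Finset.subset_insert _ _)
          · obtain ⟨w, hw, rfl⟩ := (mem_chs c1).1 h
            exact Finset.insert_subset_insert _ ((Finset.erase_subset _ _).trans c4)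
          · exact (h5 y (Or.inr (by simp [h]))).trans (Finset.subset_insert _ _)
      rw [List.length_append, length_chs] at o5
      have s5 : (D \ P).filter (· ∈ S) = (D \ insert x P).filter (· ∈ S) := by
        rw [s1, Finset.filter_insert, if_neg hS]
      have s6 : ((D \ P).filter (· ∉ S)).card = ((D \ insert x P).filter (· ∉ S)).card + 1 := by
        rw [s1, Finset.filter_insert, if_pos hS, Finset.card_insert_of_notMem (by simp)]
      by_cases hB : a x ∈ B
      · rw [Finset.insert_eq_of_mem hB] at o1 o3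
        refine ⟨(o.1, o.2.1, o.2.2.1 + 1, o.2.2.2), ?_, s5 ▸ o2, o3, ?_, ?_⟩
        · simp only [out, Multiset.mem_add, Multiset.mem_map, Multiset.mem_bind]
          exact Or.inr ⟨a x, hB, o, o1, rfl⟩
        · simp only
          omega
        · simp only [List.length_cons]
          rw [← add_assoc o.2.1, mul_add (d + 1) _ 1]
          omega
      · rw [Finset.card_insert_of_notMem hB] at o3
        refine ⟨(o.1, o.2.1 + 1, o.2.2), ?_, s5 ▸ o2, by simp only; omega, ?_, ?_⟩
        · simp only [out, Multiset.mem_add, if_pos (show B.card < K by omega), Multiset.mem_map,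
            Multiset.mem_bind]
          exact Or.inl (Or.inr ⟨a x, Finset.mem_compl.2 hB, o, o1, rfl⟩)
        · simp only
          omega
        · simp only [List.length_cons]
          rw [add_right_comm o.2.1 1, mul_add (d + 1) _ 1]
          omega

end Pool.Agent.MP_8f9e6e_pr

end

-- part Der
section

/-! Canonical derivations. -/

open Finset

namespace Pool.Agent.MP_8f9e6e_pr

variable {n d : ℕ} {S : Set (Finset (Fin n))}

/-- Derivable in at most `k` rounds. -/
def Rd (d : ℕ) (S : Set (Finset (Fin n))) : ℕ → Finset (Fin n) → Prop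
  | 0 => fun x => x ∈ S
  | k + 1 => fun x => Rd d S k x ∨
      (x.card = d + 1 ∧ ∃ u ∉ x, ∀ w ∈ x, Rd d S k (insert u (x.erase w)))

theorem Rd.mono {k l : ℕ} {x : Finset (Fin n)} (h : k ≤ l) (hx : Rd d S k x) : Rd d S l x := by
  induction h with
  | refl => exact hx
  | step _ ih => exact Or.inl ih

theorem Rd.contr {k : ℕ} : ∀ {x : Finset (Fin n)}, Rd d S k x → Contr d S x := by
  induction k with
  | zero => exact fun h => .base _ h
  | succ k ih =>
    rintro x (h | ⟨h1, u, -, h2⟩)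
    · exact ih h
    · exact .step x u h1 fun w hw => ih (h2 w hw)

theorem exists_rd {x : Finset (Fin n)} (h : Contr d S x) : ∃ k, Rd d S k x :=
  Contr.ind (P := fun x => ∃ k, Rd d S k x) (fun _ h => ⟨0, h⟩) (fun g u h1 h2 h3 => by
    choose! k hk using h3
    exact ⟨g.sup k + 1, Or.inr ⟨h1, u, h2, fun w hw => (hk w hw).mono (Finset.le_sup hw)⟩⟩) h

theorem exists_der [Nonempty (Fin n)] (d : ℕ) (S : Set (Finset (Fin n))) :
    ∃ (a : Finset (Fin n) → Fin n) (h : Finset (Fin n) → ℕ), ∀ x, Contr d S x → x ∉ S →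
      x.card = d + 1 ∧ a x ∉ x ∧ ∀ w ∈ x, Contr d S (insert (a x) (x.erase w)) ∧
        h (insert (a x) (x.erase w)) < h x := by
  have key : ∀ x, Contr d S x → x ∉ S → ∃ u, x.card = d + 1 ∧ u ∉ x ∧ ∀ w ∈ x,
      Contr d S (insert u (x.erase w)) ∧
        sInf {k | Rd d S k (insert u (x.erase w))} < sInf {k | Rd d S k x} := by
    intro x h1 h2
    have h3 : Rd d S (sInf {k | Rd d S k x}) x := Nat.sInf_mem (s := {k | Rd d S k x}) (exists_rd h1)
    cases hk : sInf {k | Rd d S k x} with
    | zero =>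
      rw [hk] at h3
      exact absurd h3 h2
    | succ k =>
      rw [hk] at h3
      rcases h3 with h | ⟨c1, u, c2, c3⟩
      · have := Nat.sInf_le (s := {k | Rd d S k x}) h
        omega
      · exact ⟨u, c1, c2, fun w hw => ⟨(c3 w hw).contr,
          Nat.lt_succ_of_le (Nat.sInf_le (s := {k | Rd d S k _}) (c3 w hw))⟩⟩
  choose! a ha using key
  exact ⟨a, fun x => sInf {k | Rd d S k x}, ha⟩

open Classical in
/-- The descendants of `g`. -/
noncomputable def desc (S : Set (Finset (Fin n))) (a : Finset (Fin n) → Fin n)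
    (g : Finset (Fin n)) : Finset (Finset (Fin n)) :=
  univ.filter (Relation.ReflTransGen (fun x y => x ∉ S ∧ ∃ w ∈ x, insert (a x) (x.erase w) = y) g)

variable {a : Finset (Fin n) → Fin n} {g x : Finset (Fin n)}

theorem mem_desc : x ∈ desc S a g ↔
    Relation.ReflTransGen (fun x y => x ∉ S ∧ ∃ w ∈ x, insert (a x) (x.erase w) = y) g x := by
  simp only [desc, mem_filter, mem_univ, true_and]

theorem self_desc : g ∈ desc S a g := mem_desc.2 .refl

theorem step_desc (h : x ∈ desc S a g) (hx : x ∉ S) {w : Fin n} (hw : w ∈ x) :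
    insert (a x) (x.erase w) ∈ desc S a g := mem_desc.2 ((mem_desc.1 h).tail ⟨hx, w, hw, rfl⟩)

theorem desc_min (Q : Finset (Fin n) → Prop) (h0 : Q g)
    (h1 : ∀ x, Q x → x ∉ S → ∀ w ∈ x, Q (insert (a x) (x.erase w))) (h : x ∈ desc S a g) : Q x := by
  rw [mem_desc] at h
  induction h with
  | refl => exact h0
  | tail _ h ih =>
    obtain ⟨c1, w, c2, rfl⟩ := h
    exact h1 _ ih c1 w c2

theorem desc_src (h : g ∈ S) : desc S a g = {g} := by
  ext x
  rw [mem_desc, Finset.mem_singleton]
  refine ⟨fun h' => ?_, fun h' => h' ▸ .refl⟩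
  rcases h'.cases_head with h' | ⟨_, h', -⟩
  · exact h'.symm
  · exact absurd h h'.1

theorem span_desc (h : g ∉ S) (hg : g.Nonempty) : (desc S a g).biUnion id =
    insert (a g) g ∪ g.biUnion fun w => (desc S a (insert (a g) (g.erase w))).biUnion id := by
  refine Finset.Subset.antisymm (Finset.biUnion_subset.2 fun x hx => ?_)
    (Finset.union_subset (Finset.insert_subset ?_ ?_) (Finset.biUnion_subset.2 fun w hw =>
      Finset.biUnion_subset_biUnion_of_subset_left _ fun x hx => ?_))
  · rcases (mem_desc.1 hx).cases_head with h' | ⟨_, ⟨-, w, hw, rfl⟩, h'⟩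
    · exact h' ▸ (Finset.subset_insert _ _).trans Finset.subset_union_left
    · exact ((Finset.subset_biUnion_of_mem id (mem_desc.2 h')).trans
        (Finset.subset_biUnion_of_mem (fun w => (desc S a (insert (a g) (g.erase w))).biUnion id)
          hw)).trans Finset.subset_union_right
  · obtain ⟨v, hv⟩ := hg
    exact Finset.mem_biUnion.2 ⟨_, step_desc self_desc h hv, Finset.mem_insert_self _ _⟩
  · exact Finset.subset_biUnion_of_mem id self_desc
  · exact mem_desc.2 (.head ⟨h, w, hw, rfl⟩ (mem_desc.1 hx))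

/-- The witness `A` of `g` is found by the exploration. -/
def Wit (d K : ℕ) (S : Set (Finset (Fin n))) (g A : Finset (Fin n)) : Prop :=
  g.card = d + 1 ∧ g ⊆ A ∧ ∃ o ∈ out d K ((d + 2) * 2 ^ n + 1) [g] g, ∃ e : ℕ,
    (∀ t ∈ o.1, t ∈ S ∧ t ⊆ A) ∧ d + 1 + o.2.1 = A.card ∧ o.1.card = d * o.2.1 + 1 + e ∧
      o.2.2.1 ≤ ((2 * d + 3) * e) ^ (d + 2) ∧ e + o.2.2.2 = d * o.2.2.1

theorem wit_desc (hd : 2 ≤ d) (hS : ∀ f ∈ S, f.card = d + 1) {h : Finset (Fin n) → ℕ}
    (ha : ∀ x, Contr d S x → x ∉ S → x.card = d + 1 ∧ a x ∉ x ∧ ∀ w ∈ x,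
      Contr d S (insert (a x) (x.erase w)) ∧ h (insert (a x) (x.erase w)) < h x)
    (hg : Contr d S g) {K : ℕ} (hK : ((desc S a g).biUnion id).card ≤ K) :
    Wit d K S g ((desc S a g).biUnion id) := by
  classical
  set D := desc S a g with hD
  set A := D.biUnion id with hA
  set T := D.filter (· ∈ S) with hT
  have c1 : ∀ x ∈ D, Contr d S x := fun x hx =>
    desc_min (Contr d S) hg (fun x h1 h2 w hw => ((ha x h1 h2).2.2 w hw).1) hx
  have c2 : ∀ x ∈ D, x.card = d + 1 := fun x hx => by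
    by_cases h : x ∈ S
    · exact hS x h
    · exact (ha x (c1 x hx) h).1
  have c3 : ∀ k, ∀ x ∈ D, h x = k → Spn d T x ((desc S a x).biUnion id) := by
    intro k
    induction k using Nat.strong_induction_on with
    | _ k ih =>
      intro x hx hk
      by_cases h : x ∈ S
      · rw [desc_src h, Finset.singleton_biUnion]
        exact ⟨c2 x hx, .base x ⟨Finset.mem_coe.2 (Finset.mem_filter.2 ⟨hx, h⟩), le_rfl⟩, .base⟩
      · obtain ⟨b1, b2, b3⟩ := ha x (c1 x hx) h
        rw [span_desc h (Finset.card_pos.1 (by omega))]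
        exact spn_step b1 b2 _ fun w hw => ih _ (hk ▸ (b3 w hw).2) _ (step_desc hx h hw) rfl
  have gD : g ∈ D := self_desc
  have gA : g ⊆ A := Finset.subset_biUnion_of_mem id gD
  obtain ⟨o, o1, o2, o3, o4, o5⟩ := out_exists (d := d) (K := K) (S := S) (a := a) (D := D) (g := g)
    (fun x hx => ⟨c2 x hx, fun h w hw => step_desc hx h hw⟩)
    (fun Q h1 h2 x hx => desc_min (· ∈ Q) h1 h2 hx) hK ((d + 2) * 2 ^ n + 1) [g] g ∅
    (by
      have : (D \ ∅).card ≤ 2 ^ n := by simpa only [sdiff_empty, Fintype.card_finset, Fintype.card_fin] using D.card_le_univ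
      simpa only [sdiff_empty, List.length_cons, List.length_nil, zero_add, add_le_add_iff_right, add_pos_iff, Order.lt_two_iff, zero_le, or_true, mul_le_mul_iff_right₀, ge_iff_le] using Nat.mul_le_mul_left (d + 2) this)
    (by simpa using gD) gA (by simp only [notMem_empty, List.mem_cons, List.not_mem_nil, or_false, false_or, IsEmpty.forall_iff, implies_true]) (by simp) (by simp)
  rw [Finset.sdiff_empty] at o2 o4
  set M := Submodule.span (ZMod 2) (Set.range fun g : T => bd d g.1) with hM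
  have m0 : ∀ (Q : Set (Finset (Fin n))) x, Q ⊆ T → Contr d Q x → bd d x ∈ M := fun Q x hQ hx =>
    Contr.ind (P := fun g => bd d g ∈ M)
      (fun f hf => Submodule.subset_span ⟨⟨f, hQ hf⟩, rfl⟩)
      (fun g u h1 h2 h3 => by rw [bd_step h1 h2]; exact Submodule.sum_mem _ h3) hx
  have m1 : ∀ x ∈ D, bd d x ∈ M := fun x hx => m0 _ x (fun _ h => h.1) (c3 _ x hx rfl).2.1
  obtain ⟨y, y1, y2⟩ := Tow.cells hd M (fun x hx => m0 _ x (fun _ h => h.1) hx) (c2 g gD)
    (c3 _ g gD rfl).2.1 (c3 _ g gD rfl).2.2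
  have m2 : Module.finrank (ZMod 2) M ≤ T.card :=
    (finrank_range_le_card (R := ZMod 2) fun g : T => bd d g.1).trans (by simp only [Fintype.card_coe, Std.le_refl])
  have m3 := Submodule.finrank_mono (inf_le_left (a := M) (b := supp A))
  have m4 : (D.filter (· ∉ S)).card ≤ (full d M A).card := by
    refine Finset.card_le_card_of_injOn (fun x => insert (a x) x) (fun x hx => ?_)
      fun x hx x' hx' he => ?_
    · obtain ⟨h1, h2⟩ := Finset.mem_filter.1 (Finset.mem_coe.1 hx)
      obtain ⟨b1, b2, -⟩ := ha x (c1 x h1) h2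
      obtain ⟨v, hv⟩ := Finset.card_pos.1 (show 0 < x.card by omega)
      refine Finset.mem_coe.2 (mem_full.2 ⟨⟨Finset.insert_subset (Finset.mem_biUnion.2
        ⟨_, step_desc h1 h2 hv, Finset.mem_insert_self _ _⟩) (Finset.subset_biUnion_of_mem id h1),
        by rw [Finset.card_insert_of_notMem b2, b1]⟩, fun w hw => ?_⟩)
      rcases Finset.mem_insert.1 hw with rfl | hw
      · rw [Finset.erase_insert b2]
        exact m1 x h1
      · rw [Finset.erase_insert_of_ne (ne_of_mem_of_not_mem hw b2).symm]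
        exact m1 _ (step_desc h1 h2 hw)
    · obtain ⟨h1, h2⟩ := Finset.mem_filter.1 (Finset.mem_coe.1 hx)
      obtain ⟨h3, h4⟩ := Finset.mem_filter.1 (Finset.mem_coe.1 hx')
      have key : ∀ x ∈ D, x ∉ S → ∀ x' ∈ D, x' ∉ S → insert (a x) x = insert (a x') x' →
          x ≠ x' → h x' < h x := by
        intro x h1 h2 x' h3 h4 he hne
        obtain ⟨-, b2, b3⟩ := ha x (c1 x h1) h2
        obtain ⟨-, b5, -⟩ := ha x' (c1 x' h3) h4
        have e1 : (insert (a x) x).erase (a x') = x' := by rw [he, Finset.erase_insert b5]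
        have e2 : a x ≠ a x' := fun h => hne (by rw [← e1, ← h, Finset.erase_insert b2])
        have e3 : a x' ∈ x :=
          (Finset.mem_insert.1 (he ▸ Finset.mem_insert_self (a x') x')).resolve_left e2.symm
        rw [Finset.erase_insert_of_ne e2] at e1
        exact e1 ▸ (b3 _ e3).2
      by_contra hne
      have := key x h1 h2 x' h3 h4 he hne
      have := key x' h3 h4 x h1 h2 he.symm (Ne.symm hne)
      omega
  rw [c2 g gD] at o3
  rw [← hD, ← hA, ← o3] at y1 y2
  rw [← hT] at o2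
  rw [mul_add, mul_add d d] at y1
  rw [List.length_singleton, add_mul, mul_add] at o5
  refine ⟨c2 g gD, gA, o, o1, T.card - (d * o.2.1 + 1), fun t ht => ?_, o3, by rw [o2]; omega,
    le_trans (show o.2.2.1 ≤ ((2 * d + 3) * y) ^ (d + 2) by omega)
      (Nat.pow_le_pow_left (Nat.mul_le_mul_left _ (by omega)) _), by rw [o2] at o5; omega⟩
  obtain ⟨h1, h2⟩ := Finset.mem_filter.1 (o2 ▸ ht)
  exact ⟨h2, Finset.subset_biUnion_of_mem id h1⟩

theorem exists_wit (hd : 2 ≤ d) (hS : ∀ f ∈ S, f.card = d + 1) {L : ℕ} (hL : d + 2 ≤ L)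
    {f : Finset (Fin n)} (hf : Contr d S f) (hc : f.card = d + 1) :
    (∃ A, A.card ≤ (d + 2) * L ∧ Wit d ((d + 2) * L) S f A) ∨
      ∃ g A, L < A.card ∧ A.card ≤ (d + 2) * L ∧ Wit d ((d + 2) * L) S g A := by
  obtain ⟨v, -⟩ := Finset.card_pos.1 (show 0 < f.card by omega)
  have : Nonempty (Fin n) := ⟨v⟩
  obtain ⟨a, h, ha⟩ := exists_der d S
  have key : ∀ k, ∀ x, Contr d S x → h x = k → ((desc S a x).biUnion id).card ≤ L ∨
      ∃ g, Contr d S g ∧ L < ((desc S a g).biUnion id).card ∧
        ((desc S a g).biUnion id).card ≤ (d + 2) * L := by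
    intro k
    induction k using Nat.strong_induction_on with
    | _ k ih =>
      intro x hx hk
      by_cases h : x ∈ S
      · rw [desc_src h, Finset.singleton_biUnion]
        exact Or.inl (by have := hS x h; simp only [id]; omega)
      obtain ⟨b1, b2, b3⟩ := ha x hx h
      by_contra hno
      rw [not_or] at hno
      refine hno.2 ⟨x, hx, not_le.1 hno.1, ?_⟩
      have a1 := Finset.card_biUnion_le_card_mul x _ _ fun w hw =>
        (ih _ (hk ▸ (b3 w hw).2) _ (b3 w hw).1 rfl).resolve_right hno.2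
      have a2 := Finset.card_insert_le (a x) x
      rw [span_desc h (Finset.card_pos.1 (by omega))]
      rw [b1] at a1
      refine (Finset.card_union_le _ _).trans ?_
      linarith only [hL, b1, a1, a2]
  rcases key _ f hf rfl with h1 | ⟨g, h1, h2, h3⟩
  · have h2 : ((desc S a f).biUnion id).card ≤ (d + 2) * L := by nlinarith only [h1]
    exact Or.inl ⟨_, h2, wit_desc hd hS ha hf h2⟩
  · exact Or.inr ⟨g, _, h2, h3, wit_desc hd hS ha h1 h3⟩

end Pool.Agent.MP_8f9e6e_pr

end

-- part Sub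
section

/-! The first moment bound below the threshold. -/

open Finset

namespace Pool.Agent.MP_8f9e6e_pr

variable {n d : ℕ} {p : ℝ}

open Classical in
theorem ex_all (p : ℝ) {T : Finset (Finset (Fin n))} (hT : ∀ t ∈ T, t.card = d + 1) :
    ∑ S : Finset (Face n d), wt p S * (if ∀ t ∈ T, inS S t then 1 else 0) = p ^ T.card := by
  have e1 : (T.subtype fun t => t.card = d + 1).card = T.card := by
    rw [Finset.card_subtype, Finset.filter_true_of_mem hT]
  rw [← e1, ← sum_wt_subset p]
  refine Finset.sum_congr rfl fun S _ => ?_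
  congr 1
  refine if_congr ⟨fun h t ht => ?_, fun h t ht => ⟨hT t ht, h (by simpa using ht)⟩⟩ rfl rfl
  exact (h t.1 (by simpa using ht)).2

theorem pr_all (h0 : 0 ≤ p) (h1 : p ≤ 1) (T : Finset (Finset (Fin n))) :
    Pr p (fun S : Finset (Face n d) => ∀ t ∈ T, inS S t) ≤ p ^ T.card := by
  classical
  by_cases hT : ∀ t ∈ T, t.card = d + 1
  · rw [← ex_all p hT]
    exact Pr_le_of h0 h1 (fun S => by split_ifs <;> norm_num) fun S hS => by rw [if_pos hS]
  · rw [Pr_false fun S hS => hT fun t ht => (hS t ht).1]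
    positivity

theorem pr_low (h0 : 0 ≤ p) (h1 : p ≤ 1) {K N k₀ φ : ℕ} {θ a b x : ℝ} (hθ : 1 ≤ θ) (ha : 0 < a)
    (hb : 0 < b) (hb1 : b ≤ 1) (hc : a * b ^ d ≤ 1) (hx : 0 ≤ x)
    (h : p + b + (n * θ + K * a) * x ^ (d + 1) ≤ x) {g : Finset (Fin n)} (hg : g.card ≤ K) :
    Pr p (fun S : Finset (Face n d) => ∃ o ∈ out d K N [g] g, (∀ t ∈ o.1, inS S t) ∧
      k₀ ≤ o.2.1 ∧ o.2.2.1 ≤ φ ∧ o.2.2.2 ≤ d * o.2.2.1) ≤ x / (θ ^ k₀ * (a * b ^ d) ^ φ) := by
  classical
  have w0 : ∀ o : Out n, 0 ≤ ww p θ a b o := fun o => by unfold ww; positivity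
  have c0 : 0 < θ ^ k₀ * (a * b ^ d) ^ φ := by positivity
  refine (Pr_union h0 h1 (out d K N [g] g).toFinset (fun o S => (∀ t ∈ o.1, inS S t) ∧
      k₀ ≤ o.2.1 ∧ o.2.2.1 ≤ φ ∧ o.2.2.2 ≤ d * o.2.2.1)
    fun S ⟨o, o1, o2⟩ => ⟨o, Multiset.mem_toFinset.2 o1, o2⟩).trans ?_
  have e1 := out_wt (d := d) h0 (by linarith only [hθ]) ha.le hb.le hx h N [g] g hg
  rw [List.length_singleton, pow_one, Finset.sum_multiset_map_count] at e1
  rw [le_div_iff₀ c0, Finset.sum_mul]
  refine le_trans (Finset.sum_le_sum fun o ho => ?_) e1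
  have e2 : ww p θ a b o ≤ Multiset.count o (out d K N [g] g) • ww p θ a b o := by
    rw [nsmul_eq_mul]
    exact le_mul_of_one_le_left (w0 o) (by
      exact_mod_cast Multiset.one_le_count_iff_mem.2 (Multiset.mem_toFinset.1 ho))
  refine le_trans ?_ e2
  by_cases hh : k₀ ≤ o.2.1 ∧ o.2.2.1 ≤ φ ∧ o.2.2.2 ≤ d * o.2.2.1
  · have e3 : (a * b ^ d) ^ φ ≤ a ^ o.2.2.1 * b ^ o.2.2.2 :=
      (pow_le_pow_of_le_one (by positivity) hc hh.2.1).trans (by
        rw [mul_pow, ← pow_mul]
        exact mul_le_mul_of_nonneg_left (pow_le_pow_of_le_one hb.le hb1 hh.2.2) (by positivity))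
    have e4 := pow_le_pow_right₀ hθ hh.1
    have e5 := (Pr_mono h0 h1 (E := fun S : Finset (Face n d) => (∀ t ∈ o.1, inS S t) ∧
      k₀ ≤ o.2.1 ∧ o.2.2.1 ≤ φ ∧ o.2.2.2 ≤ d * o.2.2.1) fun S hS => hS.1).trans (pr_all h0 h1 o.1)
    rw [ww, mul_assoc, mul_assoc]
    gcongr
  · rw [Pr_false fun S hS => hh hS.2, zero_mul]
    exact w0 o

theorem pr_high (h0 : 0 ≤ p) (h1 : p ≤ 1) (hn : n * p ^ d ≤ 1) {K e₀ : ℕ} (hK : 1 ≤ K) :
    Pr p (fun S : Finset (Face n d) => ∃ k, ∃ A : Finset (Fin n), A.card ≤ K ∧ d + 1 + k = A.card ∧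
      ∃ T : Finset (Finset (Fin n)), (∀ t ∈ T, inS S t ∧ t ⊆ A) ∧ d * k + 1 + e₀ ≤ T.card) ≤
      (K + 1) * (n ^ (d + 1) * (K ^ (d + 1)) ^ (d * K + 1) * (K ^ (d + 1) * p) ^ e₀) := by
  classical
  have key : ∀ (S : Finset (Face n d)) (A : Finset (Fin n)) (T : Finset (Finset (Fin n))),
      (∀ t ∈ T, inS S t ∧ t ⊆ A) →
      T.card ≤ (S.filter fun f => f.1 ∈ A.powersetCard (d + 1)).card := fun S A T a3 => by
    refine le_trans (le_of_eq ?_) (Finset.card_le_card (s := T.subtype fun t => t.card = d + 1)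
      fun t ht => ?_)
    · rw [Finset.card_subtype, Finset.filter_true_of_mem fun t ht => (a3 t ht).1.1]
    · have := a3 t.1 (by simpa using ht)
      exact Finset.mem_filter.2 ⟨this.1.2, Finset.mem_powersetCard.2 ⟨this.2, t.2⟩⟩
  refine (Pr_union h0 h1 ((range (K + 1)).sigma fun k => powersetCard (d + 1 + k) univ)
    (fun i S => i.2.card ≤ K ∧ d * i.1 + 1 + e₀ ≤
      (S.filter fun f => f.1 ∈ i.2.powersetCard (d + 1)).card)
    fun S ⟨k, A, a1, a2, T, a3, a4⟩ => ⟨⟨k, A⟩, by simp only [mem_sigma, mem_range, Order.lt_add_one_iff, a2, mem_powersetCard, subset_univ, and_self, and_true]; omega, a1,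
      a4.trans (key S A T a3)⟩).trans ?_
  rw [Finset.sum_sigma]
  refine (Finset.sum_le_card_nsmul _ _ _ fun k hk => ?_).trans_eq
    (by rw [Finset.card_range, nsmul_eq_mul]; push_cast; rfl)
  have hk' : k ≤ K := Nat.lt_succ_iff.1 (Finset.mem_range.1 hk)
  have K1 : (1 : ℝ) ≤ (K : ℝ) ^ (d + 1) := one_le_pow₀ (by exact_mod_cast hK)
  refine (Finset.sum_le_card_nsmul _ _ ((K ^ (d + 1) * p) ^ (d * k + 1 + e₀)) fun A _ => ?_).trans ?_
  · by_cases hA : A.card ≤ K
    · refine (Pr_mono h0 h1 fun S hS => hS.2).trans ((pr_many h0 h1 _ _).trans ?_)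
      rw [mul_pow]
      refine mul_le_mul_of_nonneg_right ((div_le_self (by positivity) (by
        exact_mod_cast Nat.factorial_pos _)).trans (pow_le_pow_left₀ (by positivity) ?_ _))
        (by positivity)
      rw [Finset.card_powersetCard]
      exact_mod_cast (Nat.choose_le_pow _ _).trans (Nat.pow_le_pow_left hA _)
    · rw [Pr_false fun S hS => hA hS.1]
      positivity
  · rw [Finset.card_powersetCard, nsmul_eq_mul, Finset.card_univ, Fintype.card_fin]
    have e1 : (n.choose (d + 1 + k) : ℝ) ≤ n ^ (d + 1 + k) := by exact_mod_cast Nat.choose_le_pow _ _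
    calc _ ≤ (n : ℝ) ^ (d + 1 + k) * (K ^ (d + 1) * p) ^ (d * k + 1 + e₀) := by gcongr
      _ = n ^ (d + 1) * (K ^ (d + 1)) ^ (d * k + 1) * (K ^ (d + 1) * p) ^ e₀ *
          ((n * p ^ d) ^ k * p) := by
        rw [pow_add _ _ e₀, mul_pow _ p (d * k + 1), mul_pow (n : ℝ), ← pow_mul p]
        ring
      _ ≤ n ^ (d + 1) * (K ^ (d + 1)) ^ (d * K + 1) * (K ^ (d + 1) * p) ^ e₀ * 1 := by
        gcongr
        exact mul_le_one₀ (pow_le_one₀ (by positivity) hn) h0 h1
      _ = _ := mul_one _

theorem pr_contr (hd : 2 ≤ d) (h0 : 0 ≤ p) (h1 : p ≤ 1) (hn : n * p ^ d ≤ 1) {K k₀ e₀ : ℕ}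
    (hk : 2 ≤ k₀) (hK : K = (d + 2) * (d + k₀)) {θ a b x : ℝ} (hθ : 1 ≤ θ) (ha : 0 < a)
    (hb : 0 < b) (hb1 : b ≤ 1) (hc : a * b ^ d ≤ 1) (hx : 0 ≤ x)
    (h : p + b + (n * θ + K * a) * x ^ (d + 1) ≤ x) (hθ' : (n : ℝ) ^ (d + 1) ≤ θ ^ k₀)
    {f : Finset (Fin n)} (hf : f.card = d + 1) :
    Pr p (fun S : Finset (Face n d) => Contr d {g | inS S g} f) ≤
      2 * (x / (a * b ^ d) ^ ((2 * d + 3) * e₀) ^ (d + 2)) +
      (K + 1) * (n ^ (d + 1) * (K ^ (d + 1)) ^ (d * K + 1) * (K ^ (d + 1) * p) ^ e₀) := by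
  classical
  have K1 : d + 1 ≤ K := by nlinarith only [hk, hK]
  set φ := ((2 * d + 3) * e₀) ^ (d + 2) with hφ
  let E : ℕ → Finset (Fin n) → Finset (Face n d) → Prop := fun k g S =>
    ∃ o ∈ out d K ((d + 2) * 2 ^ n + 1) [g] g, (∀ t ∈ o.1, inS S t) ∧
      k ≤ o.2.1 ∧ o.2.2.1 ≤ φ ∧ o.2.2.2 ≤ d * o.2.2.1
  let H : Finset (Face n d) → Prop := fun S => ∃ k, ∃ A : Finset (Fin n), A.card ≤ K ∧
    d + 1 + k = A.card ∧
      ∃ T : Finset (Finset (Fin n)), (∀ t ∈ T, inS S t ∧ t ⊆ A) ∧ d * k + 1 + e₀ ≤ T.card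
  have key : ∀ S : Finset (Face n d), ∀ g A k, A.card ≤ K → d + 1 + k ≤ A.card →
      Wit d K {g | inS S g} g A → ¬ H S → E k g S := by
    rintro S g A k a1 a2 ⟨-, -, o, o1, e, o2, o3, o4, o5, o6⟩ hH
    refine ⟨o, o1, fun t ht => (o2 t ht).1, by omega, o5.trans (Nat.pow_le_pow_left
      (Nat.mul_le_mul_left _ (not_lt.1 fun hlt => hH ⟨_, A, a1, o3, o.1, o2, by omega⟩)) _), by omega⟩
  have e1 := Pr_union h0 h1 (univ : Finset (Fin 3))
    (E := fun S : Finset (Face n d) => Contr d {g | inS S g} f)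
    ![E 0 f, fun S => ∃ g ∈ powersetCard (d + 1) univ, E k₀ g S, H] fun S hS => by
      by_cases hH : H S
      · exact ⟨2, by simp, hH⟩
      rcases exists_wit hd (fun f hf => hf.1) (L := d + k₀) (by omega) hS hf with
        ⟨A, a1, a2⟩ | ⟨g, A, a1, a2, a3⟩
      · rw [← hK] at a1 a2
        exact ⟨0, by simp, key S f A 0 a1 (by
          have := Finset.card_le_card a2.2.1; omega) a2 hH⟩
      · rw [← hK] at a2 a3
        exact ⟨1, by simp, g, by simp only [mem_powersetCard, subset_univ, a3.1, Nat.add_left_cancel_iff, and_self], key S g A k₀ a2 (by omega) a3 hH⟩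
  rw [Fin.sum_univ_three] at e1
  refine e1.trans (add_le_add ?_ (pr_high h0 h1 hn (by omega)))
  rw [two_mul]
  refine add_le_add ((pr_low h0 h1 hθ ha hb hb1 hc hx h (by omega)).trans_eq (by simp)) ?_
  refine (Pr_union h0 h1 (powersetCard (d + 1) univ) (E k₀) fun S hS => hS).trans
    ((Finset.sum_le_card_nsmul _ _ (x / (θ ^ k₀ * (a * b ^ d) ^ φ)) fun g hg =>
      pr_low h0 h1 hθ ha hb hb1 hc hx h (by
        rw [(Finset.mem_powersetCard.1 hg).2]; exact K1)).trans ?_)
  rw [Finset.card_powersetCard, nsmul_eq_mul, Finset.card_univ, Fintype.card_fin]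
  have e2 : (n.choose (d + 1) : ℝ) ≤ θ ^ k₀ :=
    le_trans (by exact_mod_cast Nat.choose_le_pow _ _) hθ'
  calc _ ≤ θ ^ k₀ * (x / (θ ^ k₀ * (a * b ^ d) ^ φ)) := by gcongr
    _ = _ := by field_simp

end Pool.Agent.MP_8f9e6e_pr

end

-- part Tree
section

/-! Stacked triangulations with distinct labels, as labelled trees. -/

open Finset Function

namespace Pool.Agent.MP_8f9e6e_pr

/-- Trees whose inner nodes carry the new vertex. -/
inductive Tr (n d : ℕ) : Type
  | leaf : Tr n d
  | node : Fin n → (Fin (d + 1) → Tr n d) → Tr n d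

namespace Tr

variable {n d : ℕ}

/-- The new vertices. -/
def V : Tr n d → Finset (Fin n)
  | leaf => ∅
  | node u c => insert u (univ.biUnion fun i => (c i).V)

/-- The faces of the triangulation of the simplex with vertices `v`. -/
def L : Tr n d → (Fin (d + 1) → Fin n) → Finset (Finset (Fin n))
  | leaf, v => {univ.image v}
  | node u c, v => univ.biUnion fun i => (c i).L (update v i u)

/-- The new vertices are distinct. -/
def G : Tr n d → Prop
  | leaf => True
  | node u c => (∀ i, (c i).G ∧ u ∉ (c i).V) ∧ ∀ i j, i ≠ j → Disjoint (c i).V (c j).V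

/-- All labels are distinct. -/
def Ok (t : Tr n d) (v : Fin (d + 1) → Fin n) : Prop := Injective v ∧ t.G ∧ ∀ i, v i ∉ t.V

/-- All vertices. -/
def R (t : Tr n d) (v : Fin (d + 1) → Fin n) : Finset (Fin n) := univ.image v ∪ t.V

variable {t t' : Tr n d} {v v' : Fin (d + 1) → Fin n} {u : Fin n} {c : Fin (d + 1) → Tr n d}
  {g W : Finset (Fin n)}

theorem V_sub (i : Fin (d + 1)) : (c i).V ⊆ (node u c).V := fun x hx => by
  simp only [V, mem_insert, mem_biUnion, mem_univ, true_and]
  exact .inr ⟨i, hx⟩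

theorem L_sub (i : Fin (d + 1)) : (c i).L (update v i u) ⊆ (node u c).L v := fun x hx => by
  simp only [L, mem_biUnion, mem_univ, true_and]
  exact ⟨i, hx⟩

theorem img (hv : Injective v) (i : Fin (d + 1)) (u : Fin n) :
    univ.image (update v i u) = insert u ((univ.image v).erase (v i)) := by
  ext x
  simp only [mem_image, mem_univ, true_and, mem_insert, mem_erase]
  constructor
  · rintro ⟨j, rfl⟩
    by_cases h : j = i
    · simp [h]
    · exact .inr ⟨by simpa [h] using hv.ne h, j, by simp [h]⟩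
  · rintro (rfl | ⟨h, j, rfl⟩)
    · exact ⟨i, by simp⟩
    · exact ⟨j, update_of_ne (fun e => h (by rw [e])) _ _⟩

theorem Ok.ne (h : Ok (node u c) v) (i : Fin (d + 1)) : v i ≠ u := fun e =>
  h.2.2 i (by simp [V, e])

theorem Ok.child (h : Ok (node u c) v) (i : Fin (d + 1)) : Ok (c i) (update v i u) := by
  refine ⟨fun a b e => ?_, (h.2.1.1 i).1, fun j => ?_⟩
  · by_cases ha : a = i <;> by_cases hb : b = i
    · rw [ha, hb]
    · exact absurd (by simpa [ha, hb] using e.symm) (h.ne b)
    · exact absurd (by simpa [ha, hb] using e) (h.ne a)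
    · exact h.1 (by simpa [ha, hb] using e)
  · by_cases hj : j = i
    · simpa [hj] using (h.2.1.1 i).2
    · rw [update_of_ne hj]
      exact fun e => h.2.2 j (V_sub i e)

theorem card_img (hv : Injective v) : (univ.image v).card = d + 1 := by
  rw [card_image_of_injective _ hv, card_univ, Fintype.card_fin]

theorem R_sub (i : Fin (d + 1)) : (c i).R (update v i u) ⊆ (node u c).R v := by
  refine union_subset (fun x hx => ?_) ((V_sub i).trans subset_union_right)
  obtain ⟨j, -, rfl⟩ := mem_image.1 hx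
  by_cases hj : j = i <;> simp only [R, V, union_insert, hj, update_self, mem_insert, mem_union, mem_image, mem_univ, true_and, mem_biUnion, true_or, ne_eq, not_false_eq_true, update_of_ne, exists_apply_eq_apply, or_true]

theorem sub_R (hg : g ∈ t.L v) : g ⊆ t.R v := by
  induction t generalizing v with
  | leaf => exact (mem_singleton.1 hg).subset.trans subset_union_left
  | node u c ih =>
    obtain ⟨i, -, hi⟩ := mem_biUnion.1 hg
    exact (ih i hi).trans (R_sub i)

theorem Ok.card (h : Ok t v) (hg : g ∈ t.L v) : g.card = d + 1 := by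
  induction t generalizing v with
  | leaf => rw [mem_singleton.1 hg, card_img h.1]
  | node u c ih =>
    obtain ⟨i, -, hi⟩ := mem_biUnion.1 hg
    exact ih i (h.child i) hi

theorem Ok.contr (h : Ok t v) {S : Set (Finset (Fin n))} (hS : ∀ g ∈ t.L v, g ∈ S) :
    Contr d S (univ.image v) := by
  induction t generalizing v with
  | leaf => exact .base _ (hS _ (mem_singleton_self _))
  | node u c ih =>
    refine .step _ u (card_img h.1) fun w hw => ?_
    obtain ⟨i, -, rfl⟩ := mem_image.1 hw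
    rw [← img h.1]
    exact ih i (h.child i) fun g hg => hS g (L_sub i hg)

theorem Ok.not_mem (h : Ok (node u c) v) (i : Fin (d + 1)) : v i ∉ (c i).R (update v i u) := by
  simp only [R, img h.1, mem_union, mem_insert, mem_erase, not_or]
  exact ⟨⟨h.ne i, by simp⟩, fun e => h.2.2 i (V_sub i e)⟩

theorem Ok.reg (h : Ok (node u c) v) {i j : Fin (d + 1)} (hi : g ⊆ (c i).R (update v i u))
    (hj : g ⊆ (c j).R (update v j u)) (hg : g.card = d + 1) : i = j := by
  by_contra hij
  have e : g ⊆ insert u (((univ.image v).erase (v i)).erase (v j)) := fun x hx => by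
    have a1 := hi hx
    have a2 := hj hx
    have a3 : x ≠ v j := fun e => h.not_mem j (e ▸ a2)
    simp only [R, img h.1, mem_union, mem_insert, mem_erase] at a1 a2 ⊢
    rcases a1 with (a1 | a1) | a1
    · exact .inl a1
    · exact .inr ⟨a3, a1⟩
    · rcases a2 with (a2 | a2) | a2
      · exact .inl a2
      · obtain ⟨k, -, rfl⟩ := mem_image.1 a2.2
        exact absurd (V_sub i a1) (h.2.2 k)
      · exact absurd a2 (disjoint_left.1 (h.2.1.2 i j hij) a1)
  have e2 := (card_le_card e).trans (card_insert_le _ _)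
  rw [card_erase_of_mem (by simpa using h.1.ne (Ne.symm hij)), card_erase_of_mem (by simp),
    card_img h.1] at e2
  have := i.2
  have := j.2
  omega

theorem card_sdiff_V (h : G (node u c)) (W : Finset (Fin n)) :
    ((node u c).V \ W).card = (if u ∈ W then 0 else 1) + ∑ i, ((c i).V \ W).card := by
  have e : (univ.biUnion fun i => (c i).V) \ W = univ.biUnion fun i => (c i).V \ W := by
    ext x; simp
  have e2 := card_biUnion (s := univ) (t := fun i => (c i).V \ W) fun i _ j _ hij =>
    (h.2 i j hij).mono sdiff_subset sdiff_subset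
  split_ifs with hu
  · rw [V, insert_sdiff_of_mem _ hu, e, e2, zero_add]
  · rw [V, insert_sdiff_of_notMem _ hu, card_insert_of_notMem (by simp [(h.1 _).2]), e, e2,
      add_comm]

theorem card_L_le (h : G t) : (t.L v).card ≤ d * t.V.card + 1 := by
  induction t generalizing v with
  | leaf => simp [L]
  | node u c ih =>
    have e := card_sdiff_V h ∅
    simp only [sdiff_empty, notMem_empty, if_false] at e
    refine card_biUnion_le.trans ((sum_le_sum fun i _ => ih i (h.1 i).1).trans_eq ?_)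
    rw [sum_add_distrib, ← mul_sum, e]
    simp only [sum_const, card_univ, Fintype.card_fin, smul_eq_mul, mul_one]
    ring

theorem Ok.card_filter (h : Ok (node u c) v) (W : Finset (Fin n)) :
    (((node u c).L v).filter fun g => ¬ g ⊆ W).card =
      ∑ i, (((c i).L (update v i u)).filter fun g => ¬ g ⊆ W).card := by
  rw [L, filter_biUnion, card_biUnion]
  intro i _ j _ hij
  refine disjoint_left.2 fun g hi hj => hij ?_
  exact h.reg (sub_R (mem_filter.1 hi).1) (sub_R (mem_filter.1 hj).1)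
    ((h.child i).card (mem_filter.1 hi).1)

theorem Ok.out_one (hd : 1 ≤ d) (h : Ok t v) (W : Finset (Fin n)) :
    d * (t.V \ W).card + (if t.R v ⊆ W then 0 else 1) ≤
      ((t.L v).filter fun g => ¬ g ⊆ W).card := by
  induction t generalizing v with
  | leaf => by_cases hW : univ.image v ⊆ W <;> simp only [V, empty_sdiff, card_empty, mul_zero, R, union_empty, hW, ↓ reduceIte, add_zero, L, filter_singleton, not_true_eq_false, Std.le_refl, zero_add, not_false_eq_true, card_singleton]
  | node u c ih =>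
    rw [h.card_filter, card_sdiff_V h.2.1]
    refine le_trans ?_ (sum_le_sum fun i _ => ih i (h.child i))
    rw [sum_add_distrib, ← mul_sum, mul_add]
    by_cases hu : u ∈ W
    · split_ifs with hW
      · simp only [mul_zero, zero_add, add_zero, le_add_iff_nonneg_right, zero_le]
      · obtain ⟨i, hi⟩ : ∃ i, ¬ (c i).R (update v i u) ⊆ W := by
          by_contra hno
          push Not at hno
          refine hW (union_subset (fun x hx => ?_) fun x hx => ?_)
          · obtain ⟨j, -, rfl⟩ := mem_image.1 hx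
            obtain ⟨i, hi⟩ : ∃ i : Fin (d + 1), j ≠ i := by
              have : Nontrivial (Fin (d + 1)) := Fin.nontrivial_iff_two_le.2 (by omega)
              simpa only [ne_eq, eq_comm] using exists_ne j
            exact hno i (mem_union_left _ (mem_image.2 ⟨j, mem_univ _, update_of_ne hi _ _⟩))
          · rcases mem_insert.1 hx with rfl | hx
            · exact hu
            · obtain ⟨i, -, hi⟩ := mem_biUnion.1 hx
              exact hno i (mem_union_right _ hi)
        have := single_le_sum (f := fun i => if (c i).R (update v i u) ⊆ W then 0 else 1)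
          (fun _ _ => Nat.zero_le _) (mem_univ i)
        simp only [if_neg hi] at this
        omega
    · have e : ∀ i, ¬ (c i).R (update v i u) ⊆ W := fun i hi =>
        hu (hi (mem_union_left _ (mem_image.2 ⟨i, mem_univ _, by simp⟩)))
      simp only [if_neg (e _), if_neg hu, sum_const, card_univ, Fintype.card_fin, smul_eq_mul]
      split_ifs <;> omega

theorem Ok.out_two (hd : 1 ≤ d) (h : Ok t v) (hg : g ∈ t.L v) (hW : g ⊆ W) :
    d * ((univ.image v \ W).card + (t.V \ W).card) ≤ ((t.L v).filter fun g => ¬ g ⊆ W).card := by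
  induction t generalizing v with
  | leaf =>
    rw [← mem_singleton.1 hg, sdiff_eq_empty_iff_subset.2 hW]
    simp [V]
  | node u c ih =>
    obtain ⟨j, -, hj⟩ := mem_biUnion.1 hg
    have e1 := ih j (h.child j) hj
    have e2 := sum_le_sum (s := univ.erase j) fun i _ => (h.child i).out_one hd W
    rw [h.card_filter, card_sdiff_V h.2.1, ← add_sum_erase _ _ (mem_univ j),
      ← add_sum_erase _ _ (mem_univ j)]
    rw [sum_add_distrib, ← mul_sum] at e2
    rw [img h.1] at e1
    have e3 : (univ.image v \ W).card ≤ ((univ.image v).erase (v j) \ W).card + 1 :=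
      (card_le_card (t := insert (v j) ((univ.image v).erase (v j) \ W)) fun x hx => by
        by_cases e : x = v j <;> simp_all).trans (card_insert_le _ _)
    have e4 : (∀ i ≠ j, ¬ (c i).R (update v i u) ⊆ W) →
        ∑ i ∈ univ.erase j, (if (c i).R (update v i u) ⊆ W then 0 else 1) = d := fun e => by
      rw [sum_congr rfl fun i hi => if_neg (e i (ne_of_mem_erase hi))]
      simp
    by_cases hu : u ∈ W
    · rw [insert_sdiff_of_mem _ hu] at e1
      by_cases hv : v j ∈ W
      · have : univ.image v \ W = (univ.image v).erase (v j) \ W := by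
          ext x
          by_cases e : x = v j <;> simp [e, hv]
        rw [this, if_pos hu]
        linarith only [Nat.zero_le (∑ i ∈ univ.erase j, if (c i).R (update v i u) ⊆ W then 0 else 1), e1, e2]
      · rw [e4 fun i hi e => hv (e (mem_union_left _ (mem_image.2
          ⟨j, mem_univ _, update_of_ne hi.symm _ _⟩)))] at e2
        rw [if_pos hu]
        nlinarith
    · rw [insert_sdiff_of_notMem _ hu, card_insert_of_notMem (by
        simp only [mem_sdiff, mem_erase, mem_image]
        rintro ⟨⟨-, k, -, e⟩, -⟩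
        exact h.ne k e)] at e1
      rw [e4 fun i _ e => hu (e (mem_union_left _ (mem_image.2 ⟨i, mem_univ _, by simp⟩)))] at e2
      rw [if_neg hu]
      nlinarith

theorem Ok.pair (hd : 2 ≤ d) (h : Ok t v) {x y : Fin n} (hx : x ∈ univ.image v)
    (hy : y ∈ univ.image v) : ∃ g ∈ t.L v, x ∈ g ∧ y ∈ g := by
  induction t generalizing v with
  | leaf => exact ⟨_, mem_singleton_self _, hx, hy⟩
  | node u c ih =>
    obtain ⟨z, z1, z2⟩ := exists_mem_notMem_of_card_lt_card (s := {x, y}) (t := univ.image v)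
      (by rw [card_img h.1]; exact card_le_two.trans_lt (by omega))
    obtain ⟨i, -, rfl⟩ := mem_image.1 z1
    simp only [mem_insert, mem_singleton, not_or] at z2
    obtain ⟨g, g1, g2⟩ := ih i (h.child i)
      (by rw [img h.1]; exact mem_insert_of_mem (mem_erase.2 ⟨Ne.symm z2.1, hx⟩))
      (by rw [img h.1]; exact mem_insert_of_mem (mem_erase.2 ⟨Ne.symm z2.2, hy⟩))
    exact ⟨g, L_sub i g1, g2⟩

theorem Ok.apex (hd : 2 ≤ d) (h : Ok (node u c) v) (j : Fin (d + 1)) :
    ∃ g ∈ (node u c).L v, u ∈ g ∧ v j ∈ g := by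
  obtain ⟨i, hi⟩ : ∃ i : Fin (d + 1), j ≠ i := by
    have : Nontrivial (Fin (d + 1)) := Fin.nontrivial_iff_two_le.2 (by omega)
    simpa only [ne_eq, eq_comm] using exists_ne j
  obtain ⟨g, g1, g2⟩ := (h.child i).pair hd (x := u) (y := v j)
    (mem_image.2 ⟨i, mem_univ _, by simp⟩) (mem_image.2 ⟨j, mem_univ _, update_of_ne hi _ _⟩)
  exact ⟨g, L_sub i g1, g2⟩

/-- A new vertex of a subfamily lies, with the simplex it subdivides, in one region. -/
theorem Ok.loc (hd : 2 ≤ d) (h : Ok (node u c) v) {u' : Fin n} {c' : Fin (d + 1) → Tr n d}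
    (h' : Ok (node u' c') v') (h1 : u' ≠ u) (h2 : ∀ i, v i ≠ u')
    (hs : (node u' c').L v' ⊆ (node u c).L v) :
    ∃ j, u' ∈ (c j).V ∧ univ.image v' ⊆ (c j).R (update v j u) := by
  have key : ∀ k, ∃ j, u' ∈ (c j).V ∧ v' k ∈ (c j).R (update v j u) := fun k => by
    obtain ⟨g, g1, g2, g3⟩ := h'.apex hd k
    obtain ⟨j, -, hj⟩ := mem_biUnion.1 (hs g1)
    refine ⟨j, (mem_union.1 (sub_R hj g2)).resolve_left fun e => ?_, sub_R hj g3⟩
    rw [img h.1] at e
    rcases mem_insert.1 e with e | e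
    · exact h1 e
    · obtain ⟨i, -, hi⟩ := mem_image.1 (mem_of_mem_erase e)
      exact h2 i hi
  obtain ⟨j, hj, -⟩ := key 0
  refine ⟨j, hj, fun x hx => ?_⟩
  obtain ⟨k, -, rfl⟩ := mem_image.1 hx
  obtain ⟨i, a1, a2⟩ := key k
  obtain rfl : i = j := by
    by_contra e
    exact disjoint_left.1 (h.2.1.2 i j e) a1 hj
  exact a2

theorem Ok.region (hd : 2 ≤ d) (h : Ok (node u c) v) (h' : Ok t' v') (h1 : u ∉ t'.V)
    (h2 : ∀ i, v i ∉ t'.V) (hs : t'.L v' ⊆ (node u c).L v) {i : Fin (d + 1)}
    (hi : univ.image v' ⊆ (c i).R (update v i u)) : t'.L v' ⊆ (c i).L (update v i u) := by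
  induction t' generalizing v' with
  | leaf =>
    intro g hg
    obtain ⟨j, -, hj⟩ := mem_biUnion.1 (hs hg)
    rwa [h.reg ((mem_singleton.1 hg).subset.trans hi) (sub_R hj) (h'.card hg)]
  | node u' c' ih =>
    obtain ⟨j, a1, a2⟩ := h.loc hd h' (fun e => h1 (by simp only [V, e, mem_insert, mem_biUnion, mem_univ, true_and, true_or]))
      (fun k e => h2 k (by simp [V, e])) hs
    obtain rfl := h.reg hi a2 (card_img h'.1)
    refine biUnion_subset.2 fun k _ => ih k (h'.child k) (fun e => h1 (V_sub k e))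
      (fun l e => h2 l (V_sub k e)) ((L_sub k).trans hs) ?_
    rw [img h'.1]
    exact insert_subset (mem_union_right _ a1) ((erase_subset _ _).trans hi)

theorem Ok.not_self (h : Ok (node u c) v) : univ.image v ∉ (node u c).L v := fun e => by
  obtain ⟨j, -, hj⟩ := mem_biUnion.1 e
  exact h.not_mem j (sub_R hj (by simp))

theorem Ok.inj (hd : 2 ≤ d) (h : Ok t v) (h' : Ok t' v) (hs : t'.L v ⊆ t.L v) : t' = t := by
  induction t' generalizing t v with
  | leaf =>
    cases t with
    | leaf => rfl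
    | node u c => exact absurd (hs (mem_singleton_self _)) h.not_self
  | node u' c' ih =>
    cases t with
    | leaf =>
      obtain ⟨g, g1, -⟩ := h'.apex hd 0
      exact absurd (mem_singleton.1 (hs g1) ▸ g1) h'.not_self
    | node u c =>
      obtain rfl : u' = u := by
        by_contra e
        obtain ⟨j, -, hj⟩ := h.loc hd h' e h'.ne hs
        exact h.not_mem j (hj (by simp))
      congr 1
      funext i
      exact ih i (h.child i) (h'.child i) (h.region hd (h'.child i) (h'.2.1.1 i).2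
        (fun k e => h'.2.2 k (V_sub i e)) ((L_sub i).trans hs) subset_union_left)

end Tr

end Pool.Agent.MP_8f9e6e_pr

end

-- part Sup
section

/-! The second moment bound above the threshold. -/

open Finset Function

namespace Pool.Agent.MP_8f9e6e_pr

variable {n d : ℕ} {p : ℝ}

open Classical in
/-- Tuples of trees with disjoint labels. -/
noncomputable def tup (A : Finset (Tr n d)) (r : ℕ) (B : Finset (Fin n)) :
    Finset (Fin r → Tr n d) :=
  (Fintype.piFinset fun _ => A).filter fun c =>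
    (∀ i, Disjoint (c i).V B) ∧ ∀ i j, i ≠ j → Disjoint (c i).V (c j).V

theorem mem_tup {A : Finset (Tr n d)} {r : ℕ} {B : Finset (Fin n)} {c : Fin r → Tr n d} :
    c ∈ tup A r B ↔ (∀ i, c i ∈ A) ∧
      (∀ i, Disjoint (c i).V B) ∧ ∀ i j, i ≠ j → Disjoint (c i).V (c j).V := by
  simp only [tup, ne_eq, mem_filter, Fintype.mem_piFinset]

open Classical in
/-- The trees of bounded height with distinct labels. -/
noncomputable def trees (n d : ℕ) : ℕ → Finset (Tr n d)
  | 0 => {.leaf}
  | h + 1 => insert .leaf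
      ((univ.sigma fun u => tup (trees n d h) (d + 1) {u}).image fun x => .node x.1 x.2)

theorem trees_spec {h : ℕ} {t : Tr n d} (ht : t ∈ trees n d h) :
    t.G ∧ t.V.card + 1 ≤ (d + 2) ^ h := by
  induction h generalizing t with
  | zero => rw [mem_singleton.1 ht]; simp [Tr.G, Tr.V]
  | succ h ih =>
    simp only [trees, mem_insert, mem_image, mem_sigma, mem_univ, true_and, mem_tup] at ht
    rcases ht with rfl | ⟨⟨u, c⟩, ⟨a1, a2, a3⟩, rfl⟩
    · exact ⟨trivial, Nat.succ_le_of_lt (by simp [Tr.V])⟩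
    · have g : (Tr.node u c).G := ⟨fun i => ⟨(ih (a1 i)).1, by simpa using a2 i⟩, a3⟩
      have e := Tr.card_sdiff_V g ∅
      have e2 := sum_le_sum (s := univ) fun i _ => (ih (a1 i)).2
      simp only [sdiff_empty, notMem_empty, if_false, sum_add_distrib, sum_const, card_univ,
        Fintype.card_fin, smul_eq_mul] at e e2
      refine ⟨g, ?_⟩
      have : 1 ≤ (d + 2) ^ h := Nat.succ_le_of_lt (by positivity)
      rw [e, pow_succ]
      linarith only [e2, this]

theorem tup_sum {A : Finset (Tr n d)} {w : Tr n d → ℝ} (hw : ∀ t, 0 ≤ w t) {s K : ℕ} {x : ℝ}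
    (hx : 0 ≤ x) (hs : ∀ t ∈ A, t.V.card ≤ s)
    (h : ∀ B : Finset (Fin n), B.card + s ≤ K → x ≤ ∑ t ∈ A with Disjoint t.V B, w t) (r : ℕ)
    (B : Finset (Fin n)) (hB : B.card + r * s ≤ K) : x ^ r ≤ ∑ c ∈ tup A r B, ∏ i, w (c i) := by
  classical
  induction r generalizing B with
  | zero =>
    have : tup A 0 B = {default} := by
      ext c
      simp [mem_tup, Subsingleton.elim c default]
    simp [this]
  | succ r ih =>
    have e1 : ((A.filter fun t => Disjoint t.V B).sigma fun t => tup A r (B ∪ t.V)).image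
        (fun y => (Fin.cons y.1 y.2 : Fin (r + 1) → Tr n d)) ⊆ tup A (r + 1) B := by
      simp only [image_subset_iff, mem_sigma, mem_filter, mem_tup, disjoint_union_right]
      rintro ⟨t, c⟩ ⟨⟨a1, a2⟩, a3, a4, a5⟩
      refine ⟨Fin.cases a1 a3, Fin.cases a2 fun i => (a4 i).1, fun i j => ?_⟩
      cases i using Fin.cases <;> cases j using Fin.cases
      · simp
      · exact fun _ => (a4 _).2.symm
      · exact fun _ => (a4 _).2
      · exact fun e => a5 _ _ fun e' => e (congrArg Fin.succ e')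
    refine le_trans ?_ (sum_le_sum_of_subset_of_nonneg e1 fun c _ _ => prod_nonneg fun i _ => hw _)
    rw [sum_image fun a _ b _ e => by
      obtain ⟨e1, e2⟩ := Fin.cons_inj.1 e
      exact Sigma.ext e1 (heq_of_eq e2), sum_sigma, pow_succ']
    refine (mul_le_mul_of_nonneg_right (h B (by nlinarith)) (by positivity)).trans ?_
    rw [sum_mul]
    refine sum_le_sum fun t ht => ?_
    simp only [Fin.prod_univ_succ, Fin.cons_zero, Fin.cons_succ]
    rw [← mul_sum]
    refine mul_le_mul_of_nonneg_left (ih _ ?_) (hw t)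
    have := card_union_le B t.V
    have := hs t (mem_filter.1 ht).1
    nlinarith

theorem trees_sum (h0 : 0 ≤ p) {K : ℕ} {x : ℕ → ℝ} (hx : ∀ h, 0 ≤ x h) (x0 : x 0 ≤ p)
    (x1 : ∀ h, x (h + 1) ≤ p + (n - K) * x h ^ (d + 1)) (h : ℕ) (B : Finset (Fin n))
    (hB : B.card + ((d + 2) ^ h - 1) ≤ K) :
    x h ≤ ∑ t ∈ trees n d h with Disjoint t.V B, p ^ (d * t.V.card + 1) := by
  classical
  induction h generalizing B with
  | zero => simpa [trees, Tr.V, filter_singleton] using x0
  | succ h ih =>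
    have e1 : insert Tr.leaf ((Bᶜ.sigma fun u => tup (trees n d h) (d + 1) (insert u B)).image
        fun x => Tr.node x.1 x.2) ⊆ (trees n d (h + 1)).filter fun t => Disjoint t.V B := by
      refine insert_subset (by simp only [trees, mem_filter, mem_insert, mem_image, mem_sigma, mem_univ, true_and, reduceCtorEq, and_false, exists_false, or_false, Tr.V, disjoint_empty_left, and_self]) (image_subset_iff.2 ?_)
      rintro ⟨u, c⟩ hc
      simp only [mem_sigma, mem_tup, disjoint_insert_right, mem_compl] at hc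
      refine mem_filter.2 ⟨mem_insert_of_mem (mem_image.2 ⟨⟨u, c⟩, ?_, rfl⟩), ?_⟩
      · simp only [mem_sigma, mem_tup, mem_univ, true_and, disjoint_singleton_right]
        exact ⟨hc.2.1, fun i => (hc.2.2.1 i).1, hc.2.2.2⟩
      · simp only [Tr.V, disjoint_insert_left, disjoint_biUnion_left]
        exact ⟨hc.1, fun i _ => (hc.2.2.1 i).2⟩
    refine (x1 h).trans (le_trans ?_ (sum_le_sum_of_subset_of_nonneg e1 fun c _ _ => by positivity))
    rw [sum_insert (by simp only [mem_image, mem_sigma, mem_compl, reduceCtorEq, and_false, exists_false, not_false_eq_true]), sum_image fun a _ b _ e => by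
      obtain ⟨e1, e2⟩ := Tr.node.inj e
      exact Sigma.ext e1 (heq_of_eq e2), sum_sigma]
    refine add_le_add (by simp [Tr.V]) (le_trans ?_
      (card_nsmul_le_sum _ _ (x h ^ (d + 1)) fun u hu => ?_))
    · rw [nsmul_eq_mul, card_compl, Fintype.card_fin, Nat.cast_sub (by simpa only [Fintype.card_fin] using card_le_univ B)]
      have : (B.card : ℝ) ≤ K := by exact_mod_cast le_self_add.trans hB
      exact mul_le_mul_of_nonneg_right (by linarith only [this]) (pow_nonneg (hx h) _)
    have b1 : 1 ≤ (d + 2) ^ h := Nat.succ_le_of_lt (by positivity)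
    refine (tup_sum (w := fun t => p ^ (d * t.V.card + 1)) (fun t => by positivity) (hx h)
      (fun t ht => Nat.le_sub_one_of_lt (trees_spec ht).2) ih (d + 1) (insert u B) ?_).trans_eq
      (sum_congr rfl fun c hc => ?_)
    · have := card_insert_le u B
      obtain ⟨s, hs⟩ := Nat.exists_eq_add_of_le' b1
      rw [pow_succ, hs] at hB
      rw [hs, Nat.add_sub_cancel]
      have : (s + 1) * (d + 2) - 1 = (d + 1) * s + s + d + 1 := by
        rw [Nat.sub_eq_iff_eq_add (by nlinarith only [])]; ring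
      omega
    · obtain ⟨a1, a2, a3⟩ := mem_tup.1 hc
      have e := Tr.card_sdiff_V (u := u) (c := c) ⟨fun i => ⟨(trees_spec (a1 i)).1,
        (disjoint_insert_right.1 (a2 i)).1⟩, a3⟩ ∅
      simp only [sdiff_empty, notMem_empty, if_false] at e
      rw [prod_pow_eq_pow_sum, e, sum_add_distrib, ← mul_sum]
      congr 1
      simp only [sum_const, card_univ, Fintype.card_fin, smul_eq_mul, mul_one]
      ring

open Classical in
theorem second_moment (h0 : 0 ≤ p) {ι : Type} (I : Finset ι) (T : ι → Finset (Finset (Fin n)))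
    (hT : ∀ i ∈ I, ∀ t ∈ T i, t.card = d + 1) {Ψ : ℝ}
    (hΨ : ∀ i ∈ I, ∑ j ∈ I with ¬ Disjoint (T i) (T j), p ^ (T j \ T i).card ≤ Ψ) :
    ∑ S : Finset (Face n d), wt p S * (((I.filter fun i => ∀ t ∈ T i, inS S t).card : ℝ) -
      ∑ i ∈ I, p ^ (T i).card) ^ 2 ≤ (∑ i ∈ I, p ^ (T i).card) * Ψ := by
  set μ := ∑ i ∈ I, p ^ (T i).card with hμ
  let X : ι → Finset (Face n d) → ℝ := fun i S => if ∀ t ∈ T i, inS S t then 1 else 0
  have e1 : ∑ S, wt p S * ∑ i ∈ I, X i S = μ := by
    simp only [mul_sum]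
    rw [sum_comm]
    exact sum_congr rfl fun i hi => ex_all p (hT i hi)
  have e2 : ∑ S, wt p S * (∑ i ∈ I, X i S) ^ 2 = ∑ i ∈ I, ∑ j ∈ I, p ^ (T i ∪ T j).card := by
    simp only [sq, sum_mul_sum]
    simp only [mul_sum]
    rw [sum_comm]
    refine sum_congr rfl fun i hi => ?_
    rw [sum_comm]
    refine sum_congr rfl fun j hj => ?_
    rw [← ex_all p (d := d) fun t ht => (mem_union.1 ht).elim (hT i hi t) (hT j hj t)]
    refine sum_congr rfl fun S _ => ?_
    simp only [X, forall_mem_union, ite_and]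
    split_ifs <;> simp
  have e3 : ∑ i ∈ I, ∑ j ∈ I, p ^ (T i ∪ T j).card ≤ μ * Ψ + μ * μ := by
    rw [← mul_add, hμ, sum_mul]
    refine sum_le_sum fun i hi => ?_
    rw [← sum_filter_add_sum_filter_not I fun j => ¬ Disjoint (T i) (T j), mul_add]
    refine add_le_add (le_trans (le_of_eq ?_) (mul_le_mul_of_nonneg_left (hΨ i hi) (by positivity)))
      ?_
    · rw [mul_sum]
      exact sum_congr rfl fun j _ => by rw [← pow_add, add_comm, card_sdiff_add_card, union_comm]
    · rw [mul_sum]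
      refine le_trans (le_of_eq (sum_congr rfl fun j hj => ?_))
        (sum_le_sum_of_subset_of_nonneg (filter_subset _ _) fun _ _ _ => by positivity)
      rw [card_union_of_disjoint (not_not.1 (mem_filter.1 hj).2), pow_add]
  calc _ = ∑ S, (wt p S * (∑ i ∈ I, X i S) ^ 2 - 2 * μ * (wt p S * ∑ i ∈ I, X i S) +
        μ ^ 2 * wt p S) := sum_congr rfl fun S _ => by rw [natCast_card_filter]; ring
    _ ≤ _ := by
      rw [sum_add_distrib, sum_sub_distrib, ← mul_sum, ← mul_sum, e1, e2, sum_wt]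
      linarith

/-- The vertices of a face in increasing order. -/
def vs (f : Face n d) : Fin (d + 1) → Fin n := f.1.orderEmbOfFin f.2

theorem vs_img (f : Face n d) : univ.image (vs f) = f.1 := image_orderEmbOfFin_univ _ _

/-- Faces with a triangulation. -/
noncomputable def idx (n d h : ℕ) : Finset (Face n d × Tr n d) :=
  (univ ×ˢ trees n d h).filter fun i => Disjoint i.2.V i.1.1

theorem idx_spec {h : ℕ} {i : Face n d × Tr n d} (hi : i ∈ idx n d h) :
    i.2.Ok (vs i.1) ∧ (i.2.R (vs i.1)).card ≤ d + (d + 2) ^ h := by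
  simp only [idx, mem_filter, mem_product, mem_univ, true_and] at hi
  refine ⟨⟨(i.1.1.orderEmbOfFin i.1.2).injective, (trees_spec hi.1).1, fun j e =>
    disjoint_left.1 hi.2 e (orderEmbOfFin_mem _ _ _)⟩, (card_union_le _ _).trans ?_⟩
  have := (trees_spec hi.1).2
  rw [vs_img, i.1.2]
  omega

theorem idx_card (hd : 2 ≤ d) (h : ℕ) (A : Finset (Fin n)) :
    ((idx n d h).filter fun i => i.2.R (vs i.1) ⊆ A).card ≤ 4 ^ A.card ^ (d + 1) := by
  refine (card_le_card_of_injOn (t := powersetCard (d + 1) A ×ˢ (powersetCard (d + 1) A).powerset)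
    (fun i => (i.1.1, i.2.L (vs i.1))) (fun i hi => ?_) fun i hi j hj e => ?_).trans ?_
  · obtain ⟨a1, a2⟩ := mem_filter.1 hi
    simp only [coe_product, Set.mem_prod, mem_coe, mem_powersetCard, mem_powerset]
    exact ⟨⟨((vs_img i.1).superset.trans subset_union_left).trans a2, i.1.2⟩, fun g hg =>
      mem_powersetCard.2 ⟨(Tr.sub_R hg).trans a2, (idx_spec a1).1.card hg⟩⟩
  · obtain ⟨e1, e2⟩ := Prod.mk.inj e
    obtain ⟨f, t⟩ := i
    obtain ⟨f', t'⟩ := j
    obtain rfl : f = f' := Subtype.ext e1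
    exact Prod.ext rfl
      ((idx_spec (mem_filter.1 hj).1).1.inj hd (idx_spec (mem_filter.1 hi).1).1 e2.subset)
  · rw [card_product, card_powerset, card_powersetCard]
    calc _ ≤ 2 ^ A.card.choose (d + 1) * 2 ^ A.card.choose (d + 1) :=
          Nat.mul_le_mul_right _ Nat.lt_two_pow_self.le
      _ ≤ _ := by
          rw [← mul_pow]
          exact Nat.pow_le_pow_right (by norm_num) (Nat.choose_le_pow _ _)

theorem idx_sum (hd : 2 ≤ d) (h0 : 0 ≤ p) {h K : ℕ} (hK : d + (d + 2) ^ h ≤ K)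
    {W : Finset (Fin n)} (hW : W.card ≤ K) :
    ∑ j ∈ idx n d h, p ^ (d * (j.2.R (vs j.1) \ W).card) ≤
      4 ^ (2 * K) ^ (d + 1) * Real.exp (n * p ^ d) := by
  classical
  simp only [pow_mul]
  rw [sum_comp (fun U : Finset (Fin n) => (p ^ d) ^ U.card) fun j : Face n d × Tr n d =>
    j.2.R (vs j.1) \ W]
  calc _ ≤ ∑ U ∈ (idx n d h).image fun j => j.2.R (vs j.1) \ W,
        4 ^ (2 * K) ^ (d + 1) * (p ^ d) ^ U.card := sum_le_sum fun U hU => by
        obtain ⟨j, j1, j2⟩ := mem_image.1 hU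
        have e1 : (W ∪ U).card ≤ 2 * K := by
          have := card_union_le W U
          have := (card_le_card (j2 ▸ sdiff_subset : U ⊆ j.2.R (vs j.1))).trans (idx_spec j1).2
          omega
        rw [nsmul_eq_mul]
        refine mul_le_mul_of_nonneg_right ?_ (by positivity)
        exact_mod_cast (card_le_card (monotone_filter_right _ fun i _ hi => by
          rw [← hi, union_sdiff_self_eq_union]; exact subset_union_right)).trans
          ((idx_card hd h (W ∪ U)).trans (Nat.pow_le_pow_right (by norm_num)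
            (Nat.pow_le_pow_left e1 _)))
    _ ≤ ∑ U ∈ (univ : Finset (Fin n)).powerset, 4 ^ (2 * K) ^ (d + 1) * (p ^ d) ^ U.card :=
        sum_le_sum_of_subset_of_nonneg (fun _ _ => by simp only [powerset_univ, mem_univ]) fun _ _ _ => by positivity
    _ ≤ _ := by
        rw [← mul_sum, sum_powerset_pow, card_univ, Fintype.card_fin, Real.exp_nat_mul]
        gcongr
        exact Real.add_one_le_exp _

theorem pr_few (hd : 2 ≤ d) (h0 : 0 ≤ p) (h1 : p ≤ 1) {h K : ℕ} (hK : d + (d + 2) ^ h ≤ K)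
    {x : ℕ → ℝ} (hx : ∀ h, 0 ≤ x h) (x0 : x 0 ≤ p)
    (x1 : ∀ h, x (h + 1) ≤ p + (n - K) * x h ^ (d + 1)) (hm : 0 < n.choose (d + 1) * x h) :
    Pr p (fun S : Finset (Face n d) =>
      (Set.ncard {f : Face n d | Contr d {g | inS S g} f.1} : ℝ) < n.choose (d + 1) * x h / 4) ≤
      (4 / (n.choose (d + 1) * x h) + 4 * p) * (4 ^ (2 * K) ^ (d + 1) * Real.exp (n * p ^ d)) := by
  classical
  set Ψ := 4 ^ (2 * K) ^ (d + 1) * Real.exp (n * p ^ d) with hΨ
  set I := idx n d h with hI
  let T : Face n d × Tr n d → Finset (Finset (Fin n)) := fun i => i.2.L (vs i.1)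
  have hT : ∀ i ∈ I, ∀ t ∈ T i, t.card = d + 1 := fun i hi t => (idx_spec hi).1.card
  have sub : ∀ i j, ((T j).filter fun g => ¬ g ⊆ i.2.R (vs i.1)).card ≤ (T j \ T i).card :=
    fun i j => card_le_card fun g hg => mem_sdiff.2 ⟨(mem_filter.1 hg).1, fun e =>
      (mem_filter.1 hg).2 (Tr.sub_R e)⟩
  have e1 := second_moment h0 I T hT (Ψ := Ψ) fun i hi => le_trans (le_trans (sum_le_sum
    fun j hj => pow_le_pow_of_le_one h0 h1 (by
      obtain ⟨j1, j2⟩ := mem_filter.1 hj
      obtain ⟨g, g1, g2⟩ := not_disjoint_iff.1 j2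
      refine le_trans (Nat.mul_le_mul_left _ ?_)
        (((idx_spec j1).1.out_two (by omega) g2 (Tr.sub_R g1)).trans (sub i j))
      rw [Tr.R, union_sdiff_distrib]
      exact card_union_le _ _))
    (sum_le_sum_of_subset_of_nonneg (filter_subset _ _) fun _ _ _ => by positivity))
    (idx_sum hd h0 hK ((idx_spec hi).2.trans hK))
  set μ := ∑ i ∈ I, p ^ (T i).card with hμ
  have m1 : n.choose (d + 1) * x h ≤ μ := by
    rw [hμ, hI, idx, sum_filter, sum_product, ← card_face, ← card_univ, ← nsmul_eq_mul]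
    refine card_nsmul_le_sum _ _ _ fun f _ => ?_
    rw [← sum_filter]
    have : 1 ≤ (d + 2) ^ h := Nat.succ_le_of_lt (by positivity)
    refine (trees_sum h0 hx x0 x1 h f.1 (by rw [f.2]; omega)).trans (sum_le_sum fun t ht => ?_)
    exact pow_le_pow_of_le_one h0 h1 (Tr.card_L_le (trees_spec (mem_filter.1 ht).1).1)
  have m0 : 0 < μ := hm.trans_le m1
  let J := I.sigma fun i => I.filter fun j => j.1 = i.1 ∧ j ≠ i
  let Z : Finset (Face n d) → ℝ := fun S =>
    ∑ y ∈ J, if ∀ t ∈ T y.1 ∪ T y.2, inS S t then 1 else 0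
  have z0 : ∀ S, 0 ≤ Z S := fun S => sum_nonneg fun _ _ => by split_ifs <;> norm_num
  have e2 : ∑ S, wt p S * Z S ≤ μ * (p * Ψ) := by
    simp only [Z, mul_sum]
    rw [sum_comm, sum_sigma, hμ, sum_mul]
    refine sum_le_sum fun i hi => le_trans ?_ (mul_le_mul_of_nonneg_left (mul_le_mul_of_nonneg_left
      (idx_sum hd h0 hK ((idx_spec hi).2.trans hK)) h0) (by positivity))
    rw [mul_sum, mul_sum]
    refine le_trans (sum_le_sum fun j hj => ?_)
      (sum_le_sum_of_subset_of_nonneg (filter_subset _ _) fun _ _ _ => by positivity)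
    obtain ⟨j1, j2, j3⟩ := mem_filter.1 hj
    rw [ex_all p fun t ht => (mem_union.1 ht).elim (hT i hi t) (hT j j1 t), union_comm,
      ← card_sdiff_add_card, pow_add, mul_comm, ← pow_succ']
    refine mul_le_mul_of_nonneg_left (pow_le_pow_of_le_one h0 h1 ?_) (by positivity)
    by_cases hR : j.2.R (vs j.1) ⊆ i.2.R (vs i.1)
    · rw [sdiff_eq_empty_iff_subset.2 hR]
      refine card_pos.2 (sdiff_nonempty.2 fun e => j3 (Prod.ext j2 ?_))
      exact (idx_spec hi).1.inj hd (j2 ▸ (idx_spec j1).1) (by simpa [T, j2] using e)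
    · have := (idx_spec j1).1.out_one (by omega) (i.2.R (vs i.1))
      rw [if_neg hR] at this
      refine le_trans (Nat.succ_le_succ (Nat.mul_le_mul_left _ (card_le_card ?_)))
        (this.trans (sub i j))
      exact fun y hy => mem_sdiff.2 ⟨(mem_union.1 (mem_sdiff.1 hy).1).resolve_left fun e =>
        (mem_sdiff.1 hy).2 (mem_union_left _ (j2 ▸ e)), (mem_sdiff.1 hy).2⟩
  refine (Pr_le_of h0 h1 (g := fun S => 4 / μ ^ 2 * (((I.filter fun i => ∀ t ∈ T i,
    inS S t).card : ℝ) - μ) ^ 2 + 4 / μ * Z S) (fun S => by have := z0 S; positivity)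
    fun S hS => ?_).trans ?_
  · set P := I.filter fun i => ∀ t ∈ T i, inS S t with hP
    have b1 : (P.card : ℝ) ≤ Set.ncard {f : Face n d | Contr d {g | inS S g} f.1} + Z S := by
      rw [← card_filter_add_card_filter_not (s := P) fun i => ∀ j ∈ P, j.1 = i.1 → j = i,
        Nat.cast_add]
      refine add_le_add (Nat.cast_le.2 ?_) ?_
      · rw [← Set.ncard_coe_finset]
        refine Set.ncard_le_ncard_of_injOn Prod.fst (fun i hi => ?_) fun i hi j hj e =>
          (mem_filter.1 hj).2 i (mem_filter.1 hi).1 e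
        obtain ⟨a1, a2⟩ := mem_filter.1 (mem_filter.1 hi).1
        simpa [vs_img] using (idx_spec a1).1.contr (S := {g | inS S g}) a2
      · simp only [Z]
        rw [← natCast_card_filter]
        refine Nat.cast_le.2 (card_le_card_of_surjOn Sigma.fst fun i hi => ?_)
        obtain ⟨a1, a2⟩ := mem_filter.1 hi
        push Not at a2
        obtain ⟨j, j1, j2⟩ := a2
        exact ⟨⟨i, j⟩, mem_filter.2 ⟨mem_sigma.2 ⟨(mem_filter.1 a1).1, mem_filter.2
          ⟨(mem_filter.1 j1).1, j2⟩⟩, forall_mem_union.2 ⟨(mem_filter.1 a1).2,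
            (mem_filter.1 j1).2⟩⟩, rfl⟩
    by_cases b2 : μ / 4 ≤ Z S
    · refine le_add_of_nonneg_of_le (by positivity) ?_
      rw [div_mul_eq_mul_div, le_div_iff₀ m0]
      linarith only [b2]
    · refine le_add_of_le_of_nonneg ?_ (by have := z0 S; positivity)
      rw [div_mul_eq_mul_div, le_div_iff₀ (by positivity)]
      nlinarith only [m1, hS, b1, b2]
  · simp only [mul_add, sum_add_distrib, mul_left_comm (wt p _), ← mul_sum]
    have P0 : 0 ≤ Ψ := by positivity
    calc _ ≤ 4 / μ ^ 2 * (μ * Ψ) + 4 / μ * (μ * (p * Ψ)) := by gcongr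
      _ = (4 / μ + 4 * p) * Ψ := by field_simp
      _ ≤ _ := by gcongr

end Pool.Agent.MP_8f9e6e_pr

end

-- part Asy
section

/-! Asymptotics on both sides of the threshold. -/

open Finset Filter Topology

namespace Pool.Agent.MP_8f9e6e_pr

variable {d : ℕ}

theorem log_spec {n : ℕ} (hn : 1 ≤ n) : n < 2 ^ (Nat.log 2 n + 1) ∧ 2 ^ (Nat.log 2 n + 1) ≤ 2 * n :=
  ⟨Nat.lt_pow_succ_log_self (by norm_num) n, by
    rw [pow_succ']
    exact Nat.mul_le_mul_left _ (Nat.pow_log_le_self 2 (by omega))⟩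

theorem ev_small (hd : 2 ≤ d) {η : ℝ} (hη : 0 < η) : ∀ᶠ n : ℕ in atTop, ∀ z G : ℝ, 0 ≤ z → 0 ≤ G →
    n * z ^ d ≤ 1 → G ^ (2 * d) ≤ 2 ^ (Nat.log 2 n + 1) → G * z ≤ η := by
  filter_upwards [eventually_ge_atTop 1, (tendsto_const_div_atTop_nhds_zero_nat 2).eventually_le_const
    (pow_pos hη (2 * d))] with n hn h z G z0 G0 hz hG
  refine le_of_pow_le_pow_left₀ (n := 2 * d) (by omega) hη.le (le_trans ?_ h)
  have n0 : (0 : ℝ) < n := by exact_mod_cast hn
  have e : (2 : ℝ) ^ (Nat.log 2 n + 1) ≤ 2 * n := by exact_mod_cast (log_spec hn).2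
  rw [le_div_iff₀ n0, mul_pow, mul_comm 2 d, pow_mul z]
  calc _ ≤ 2 * n * (z ^ d) ^ 2 * n := by gcongr; rw [mul_comm]; exact hG.trans e
    _ = 2 * (n * z ^ d) ^ 2 := by ring
    _ ≤ 2 * 1 ^ 2 := by gcongr
    _ = _ := by ring

theorem ev_log (A B k : ℕ) (hA : 1 ≤ A) : ∀ᶠ n : ℕ in atTop, ∀ K : ℕ, Nat.log 2 n + 1 ≤ K →
    K ≤ A * (Nat.log 2 n + 1) → B * (Nat.log 2 K + 1) ^ k ≤ Nat.log 2 n + 1 := by
  obtain ⟨v, hv⟩ := eventually_atTop.1 (((tendsto_pow_const_div_const_pow_of_one_lt k
    (one_lt_two (α := ℝ))).const_mul (2 * A * B : ℝ)).eventually_le_const (u := 1) (by simp))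
  filter_upwards [eventually_ge_atTop (2 ^ 2 ^ v)] with n hn K h1 h2
  have e1 : 2 ^ v ≤ Nat.log 2 n := Nat.le_log_of_pow_le (by norm_num) hn
  have e2 : v ≤ Nat.log 2 K := Nat.le_log_of_pow_le (by norm_num) (by omega)
  have e3 := hv (Nat.log 2 K + 1) (by omega)
  rw [← mul_div_assoc, div_le_one (by positivity)] at e3
  have e4 : 2 * A * B * (Nat.log 2 K + 1) ^ k ≤ 2 ^ (Nat.log 2 K + 1) := by exact_mod_cast e3
  have e5 := (log_spec (n := K) (by omega)).2
  refine Nat.le_of_mul_le_mul_left ?_ (show 0 < 2 * A by omega)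
  rw [← mul_assoc, mul_assoc 2 A (_ + 1)]
  omega

theorem sub_ev (hd : 2 ≤ d) {ε η : ℝ} (h0 : 0 < ε) (h1 : ε ≤ 1) (hη : 0 < η) :
    ∀ᶠ n : ℕ in atTop, ∀ z : ℝ, 0 < z → (d + 1) * (n * z ^ d) = 1 → ∀ f : Finset (Fin n),
      f.card = d + 1 → Pr ((1 - ε) * (d / (d + 1) * z))
        (fun S : Finset (Face n d) => Contr d {g | inS S g} f) ≤ η := by
  obtain ⟨A, hA⟩ := pow_unbounded_of_one_lt ((2 : ℝ) ^ (d + 1)) (show 1 < 1 + ε by linarith only [h0])
  set c : ℝ := ε / 2 * (ε / (2 * (d + 1))) ^ d / (d + 1) with hc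
  obtain ⟨B, hB⟩ := pow_unbounded_of_one_lt (1 / c) (one_lt_two (α := ℝ))
  set A' := (d + 2) * (d + (A + 2)) with hA'
  set E := d + 3 + (d + 1) * (d * A' + 1) with hE
  have d2 : (2 : ℝ) ≤ d := by exact_mod_cast hd
  have c0 : 0 < c := by positivity
  have b0 : ε / (2 * (d + 1)) ≤ 1 := by rw [div_le_one (by positivity)]; linarith only [h1, d2]
  have c1 : c ≤ 1 := by
    rw [hc, div_le_one (by positivity)]
    exact (mul_le_one₀ (by linarith only [h1]) (by positivity) (pow_le_one₀ (by positivity) b0)).trans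
      (by linarith only [d2])
  filter_upwards [eventually_ge_atTop 1, ev_small hd (show 0 < η / 4 by positivity),
    ev_small hd one_pos, ev_log A' (2 * d * (B + 1) * ((2 * d + 3) * (2 * d * E)) ^ (d + 2)) (d + 3)
      (by nlinarith only [hA']), ev_log A' (2 * d * (d + 1) + 2) 1 (by nlinarith only [hA']),
    (tendsto_const_div_atTop_nhds_zero_nat 1).eventually_le_const (show 0 < η / 2 by positivity)]
    with n hn s1 s2 s3 s4 s5 z z0 hz f hf
  set w := Nat.log 2 n + 1 with hw
  set K := (d + 2) * (d + (A + 2) * w) with hK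
  set v := Nat.log 2 K + 1 with hv
  have w1 : 1 ≤ w := by omega
  have v1 : 1 ≤ v := by omega
  have K1 : w ≤ K := by linarith only [Nat.zero_le (d * (d + (A + 2) * w)), Nat.zero_le (A * w), hK]
  have K2 : K ≤ A' * w := by
    rw [hK, hA', mul_assoc]
    exact Nat.mul_le_mul_left _ (by nlinarith only [hw])
  have K0 : (1 : ℝ) ≤ K := by exact_mod_cast w1.trans K1
  have K3 : (K : ℝ) + 1 ≤ 2 ^ v := by exact_mod_cast (log_spec (w1.trans K1)).1
  have n0 : (0 : ℝ) < n := by exact_mod_cast hn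
  have n1 : (n : ℝ) ≤ 2 ^ w := by exact_mod_cast (log_spec hn).1.le
  have n2 : (2 : ℝ) ^ w ≤ 2 * n := by exact_mod_cast (log_spec hn).2
  have z1 : n * z ^ d ≤ 1 := by nlinarith only [hz]
  have z2 : z ≤ 1 := by simpa only [one_mul] using s2 z 1 z0.le zero_le_one z1 (by simpa only [one_pow] using one_le_pow₀ one_le_two)
  set p := (1 - ε) * (d / (d + 1) * z) with hp
  have p0 : 0 ≤ p := mul_nonneg (by linarith only [h1]) (by positivity)
  have p1 : p ≤ z := (mul_le_of_le_one_left (by positivity) (by linarith only [h0])).trans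
    (mul_le_of_le_one_left z0.le (div_le_one_of_le₀ (by linarith only []) (by positivity)))
  have ab : ε * n / (2 * K) * (ε / (2 * (d + 1)) * z) ^ d = c / K := by
    have : n * z ^ d = 1 / (d + 1) := by rw [eq_div_iff (by positivity)]; linarith only [hz]
    calc _ = ε / 2 * (ε / (2 * (d + 1))) ^ d * (n * z ^ d) / K := by rw [mul_pow]; field_simp
      _ = _ := by rw [this, hc]; ring
  refine (pr_contr hd p0 (p1.trans z2) (le_trans (by gcongr) z1) (k₀ := (A + 2) * w)
    (e₀ := 2 * d * (E * v)) (by nlinarith only [hw]) hK (θ := 1 + ε) (a := ε * n / (2 * K))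
    (b := ε / (2 * (d + 1)) * z) (x := z) (by linarith only [h0]) (by positivity) (by positivity)
    (mul_le_one₀ b0 z0.le z2) (by rw [ab, div_le_one (by positivity)]; linarith only [c1, K0]) z0.le ?_ ?_ hf).trans
    ((add_le_add ?_ ?_).trans_eq (add_halves η))
  · have : (n * (1 + ε) + K * (ε * n / (2 * K))) * z ^ (d + 1) =
        (1 + ε + ε / 2) * z * ((d + 1) * (n * z ^ d)) / (d + 1) := by field_simp; ring
    rw [this, hz, hp, ← sub_nonneg]
    have : z - ((1 - ε) * (d / (d + 1) * z) + ε / (2 * (d + 1)) * z +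
      (1 + ε + ε / 2) * z * 1 / (d + 1)) = ε * (d - 2) * z / (d + 1) := by field_simp; ring
    rw [this]
    exact div_nonneg (mul_nonneg (mul_nonneg h0.le (by linarith only [d2])) z0.le) (by positivity)
  · calc (n : ℝ) ^ (d + 1) ≤ (2 ^ w) ^ (d + 1) := by gcongr
      _ = (2 ^ (d + 1)) ^ w := pow_right_comm _ _ _
      _ ≤ ((1 + ε) ^ (A + 2)) ^ w := by
          gcongr
          exact hA.le.trans (pow_le_pow_right₀ (by linarith only [h0]) (by omega))
      _ = _ := (pow_mul _ _ _).symm
  · rw [ab, div_eq_inv_mul z, ← inv_pow]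
    refine le_trans (mul_le_mul_of_nonneg_left (s1 z _ z0.le (by positivity) z1 ?_) zero_le_two)
      (by linarith only [])
    have e : (c / K)⁻¹ ≤ 2 ^ ((B + 1) * v) := by
      rw [inv_div, div_eq_mul_one_div]
      calc _ ≤ (2 : ℝ) ^ v * 2 ^ B := by gcongr; linarith only [K3]
        _ ≤ _ := by rw [← pow_add]; exact pow_le_pow_right₀ one_le_two (by nlinarith only [hv])
    rw [← pow_mul]
    refine (pow_le_pow_left₀ (by positivity) e _).trans ?_
    rw [← pow_mul]
    refine pow_le_pow_right₀ one_le_two (le_trans (le_of_eq ?_) (s3 K K1 K2))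
    rw [← mul_assoc (2 * d), ← mul_assoc (2 * d + 3), mul_pow _ v]
    ring
  · have r1 : ((K : ℝ) ^ (d + 1) * p) ^ (2 * d) * 2 ^ w ≤ 1 := by
      have e : (2 : ℝ) ^ (v * (d + 1) * (2 * d)) * 4 ≤ 2 ^ w := by
        rw [show (4 : ℝ) = 2 ^ 2 by norm_num, ← pow_add]
        exact pow_le_pow_right₀ one_le_two (le_trans (by rw [pow_one]; nlinarith only [hA', hE, hv]) (s4 K K1 K2))
      have e2 : ((K : ℝ) ^ (d + 1) * p) ^ (2 * d) ≤ 2 ^ (v * (d + 1) * (2 * d)) * (z ^ d) ^ 2 := by
        rw [mul_pow, ← pow_mul z, mul_comm d 2, pow_mul (2 : ℝ), pow_mul (2 : ℝ)]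
        gcongr
        linarith only [K3]
      calc _ ≤ 2 ^ (v * (d + 1) * (2 * d)) * 4 * 2 ^ w * (z ^ d) ^ 2 / 4 := by
            nlinarith only [n1, e2]
        _ ≤ 2 * n * (2 * n) * (z ^ d) ^ 2 / 4 := by
            gcongr ?_ * ?_ * _ / _
            exact e.trans n2
        _ = (n * z ^ d) ^ 2 := by ring
        _ ≤ 1 := pow_le_one₀ (by positivity) z1
    refine le_trans ?_ s5
    rw [le_div_iff₀ n0, pow_mul _ (2 * d)]
    set r := ((K : ℝ) ^ (d + 1) * p) ^ (2 * d) with hr
    have r0 : 0 ≤ r := by positivity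
    calc _ ≤ 2 ^ v * ((2 ^ w) ^ (d + 1) * ((2 ^ v) ^ (d + 1)) ^ (d * K + 1) * r ^ (E * v)) * 2 ^ w := by
          gcongr
          linarith only [K3]
      _ = r ^ (E * v) * 2 ^ (v + w * (d + 1) + v * (d + 1) * (d * K + 1) + w) := by
          simp only [pow_add _ _ w, pow_add _ v, pow_add _ (v + _), pow_mul]
          ring
      _ ≤ r ^ (E * v) * 2 ^ (w * (E * v)) := by
          refine mul_le_mul_of_nonneg_left (pow_le_pow_right₀ one_le_two ?_) (by positivity)
          have a1 : d * K + 1 ≤ (d * A' + 1) * w := by nlinarith only [hw, K2]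
          have a2 := Nat.mul_le_mul_left (v * (d + 1)) a1
          have a3 : w * (d + 2) ≤ w * (d + 2) * v := Nat.le_mul_of_pos_right _ v1
          have a4 : v ≤ v * w := Nat.le_mul_of_pos_right _ w1
          rw [hE]
          linarith only [a2, a3, a4]
      _ ≤ 1 := by
          rw [pow_mul _ w, ← mul_pow]
          exact pow_le_one₀ (by positivity) r1

theorem growth (hd : 2 ≤ d) {ε : ℝ} (h0 : 0 < ε) (M : ℝ) (hM : 0 ≤ M) : ∃ l < (1 : ℝ), ∃ y : ℕ → ℝ,
    ∃ h₀, y 0 = 0 ∧ (∀ h, 0 ≤ y h) ∧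
      (∀ h, y (h + 1) = ((1 + ε) * d + l * y h ^ (d + 1)) / (d + 1)) ∧ ∀ i, M ^ i ≤ y (h₀ + i) := by
  set s := 1 + ε / 2 with hs
  have s1 : 1 < s := by linarith only [h0, hs]
  have d2 : (2 : ℝ) ≤ d := by exact_mod_cast hd
  set l := (s ^ d)⁻¹ with hl
  have l0 : 0 < l := by positivity
  let y : ℕ → ℝ := fun h => Nat.rec 0 (fun _ y => ((1 + ε) * d + l * y ^ (d + 1)) / (d + 1)) h
  have y1 : ∀ h, y (h + 1) = ((1 + ε) * d + l * y h ^ (d + 1)) / (d + 1) := fun _ => rfl
  have y0 : ∀ h, 0 ≤ y h := fun h => by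
    induction h with
    | zero => exact le_rfl
    | succ h ih => rw [y1]; positivity
  have y2 : ∀ h, y h + ε / 4 ≤ y (h + 1) := fun h => by
    have e := one_add_mul_le_pow (a := y h / s - 1)
      (by have := div_nonneg (y0 h) (zero_le_one.trans s1.le); linarith only [this]) (d + 1)
    have e2 : l * y h ^ (d + 1) = s * (y h / s) ^ (d + 1) := by rw [hl, div_pow]; field_simp; ring
    have e3 : s * (1 + (d + 1) * (y h / s - 1)) = (d + 1) * y h - d * s := by field_simp; ring
    rw [add_sub_cancel, Nat.cast_succ] at e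
    have e4 := mul_le_mul_of_nonneg_left e (zero_le_one.trans s1.le)
    rw [y1, le_div_iff₀ (by positivity), e2]
    nlinarith only [hs, s1, d2, e3, e4]
  have y3 : ∀ h : ℕ, h * (ε / 4) ≤ y h := fun h => by
    induction h with
    | zero => simp [y0]
    | succ h ih => push_cast; linarith only [y2 h, ih]
  obtain ⟨h₀, hh⟩ := exists_nat_ge ((1 + (d + 1) * M / l) / (ε / 4))
  rw [div_le_iff₀ (by positivity)] at hh
  have y4 : ∀ i, 1 + (d + 1) * M / l ≤ y (h₀ + i) := fun i =>
    hh.trans (le_trans (by push_cast; gcongr; exact le_add_of_nonneg_right (by positivity)) (y3 _))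
  have a0 : 0 ≤ (d + 1) * M / l := by positivity
  refine ⟨l, inv_lt_one_of_one_lt₀ (one_lt_pow₀ s1 (by omega)), y, h₀, rfl, y0, y1, fun i => ?_⟩
  induction i with
  | zero => simpa only [pow_zero, add_zero] using le_trans (by linarith only [a0]) (y4 0)
  | succ i ih =>
    have a1 : (d + 1) * M ≤ y (h₀ + i) ^ d * l := (div_le_iff₀ l0).1
      (le_trans (by linarith only [y4 i]) (le_self_pow₀ (by linarith only [y4 i, a0]) (by omega)))
    rw [← add_assoc, y1, le_div_iff₀ (by positivity), pow_succ, pow_succ]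
    calc _ = (d + 1) * M * M ^ i := by ring
      _ ≤ y (h₀ + i) ^ d * l * y (h₀ + i) := by have := y0 (h₀ + i); gcongr
      _ ≤ _ := by linarith only [show 0 ≤ (1 + ε) * d by positivity]

theorem ev_choose (hd : 2 ≤ d) (A : ℝ) : ∀ᶠ n : ℕ in atTop, A * n ≤ n.choose (d + 1) := by
  filter_upwards [eventually_ge_atTop (2 * d), tendsto_natCast_atTop_atTop.eventually_ge_atTop
    (A * (2 ^ (d + 1) * (d + 1).factorial))] with n h1 h2
  have n1 : (1 : ℝ) ≤ n := by exact_mod_cast (by omega)
  refine le_of_mul_le_mul_left ?_ (show (0 : ℝ) < 2 ^ (d + 1) * (d + 1).factorial by positivity)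
  refine le_trans ?_ ((pow_le_pow_right₀ n1 (show 2 ≤ d + 1 by omega)).trans (choose_ge h1))
  nlinarith only [h2]

theorem sup_ev (hd : 2 ≤ d) {ε η : ℝ} (h0 : 0 < ε) (h1 : ε ≤ 1) (hη : 0 < η) (A : ℕ) :
    ∀ᶠ n : ℕ in atTop, ∀ z : ℝ, 0 < z → (d + 1) * (n * z ^ d) = 1 →
      Pr ((1 + ε) * (d / (d + 1) * z)) (fun S : Finset (Face n d) =>
        (Set.ncard {f : Face n d | Contr d {g | inS S g} f.1} : ℝ) <
          n.choose (d + 1) * ((A + 1) * (Nat.log 2 n + 1) * z)) ≤ η := by
  set D := (d + 2) ^ (d + 1) with hD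
  have D1 : 1 < D := Nat.one_lt_pow (by omega) (by omega)
  obtain ⟨l, l1, y, h₀, y0, y1, y2, y3⟩ := growth hd h0 (2 * D) (by positivity)
  set c := 4 * d * (4 * (d + 2) ^ h₀) ^ (d + 1) with hc
  have c0 : 0 < c := by positivity
  set i₀ := 4 * (A + 1) * c * D with hi₀
  have d2 : (2 : ℝ) ≤ d := by exact_mod_cast hd
  filter_upwards [eventually_ge_atTop 1, eventually_ge_atTop (2 ^ (D ^ i₀ * c)),
    ev_small hd (show 0 < η / (12 * Real.exp (2 ^ d)) by positivity),
    ev_small hd (show 0 < (1 - l) / (d + 1) from div_pos (by linarith only [l1]) (by positivity)),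
    ev_small hd one_half_pos, ev_choose hd (d + 1)] with n hn n1 s1 s2 s3 s4 z z0 hz
  set w := Nat.log 2 n + 1 with hw
  have w1 : D ^ i₀ * c ≤ w := (Nat.le_log_of_pow_le (by norm_num) n1).trans (by omega)
  have w2 := (Nat.le_div_iff_mul_le c0).2 w1
  set i := Nat.log D (w / c) with hi
  have i1 : i₀ ≤ i := Nat.le_log_of_pow_le D1 w2
  have i2 : D ^ i * c ≤ w := (Nat.le_div_iff_mul_le c0).1
    (Nat.pow_log_le_self D (ne_of_gt (lt_of_lt_of_le (by positivity) w2)))
  have i3 : w < D ^ (i + 1) * c := (Nat.div_lt_iff_lt_mul c0).1 (Nat.lt_pow_succ_log_self D1 _)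
  set K := d + (d + 2) ^ (h₀ + i) with hK
  have i0 : 1 ≤ i := le_trans (Nat.succ_le_of_lt (by positivity)) i1
  have K1 : 2 * K ≤ 4 * (d + 2) ^ h₀ * (d + 2) ^ i := by
    have := Nat.le_self_pow (n := h₀ + i) (by omega) (d + 2)
    rw [mul_assoc, ← pow_add]
    omega
  set G : ℝ := 4 ^ (2 * K) ^ (d + 1) with hG
  have G1 : G ^ (2 * d) ≤ 2 ^ w := by
    rw [hG, show (4 : ℝ) = 2 ^ 2 by norm_num, ← pow_mul, ← pow_mul]
    refine pow_le_pow_right₀ one_le_two (le_trans ?_ i2)
    have := Nat.pow_le_pow_left K1 (d + 1)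
    rw [mul_pow _ ((d + 2) ^ i), pow_right_comm _ i, ← hD] at this
    calc _ = 4 * d * (2 * K) ^ (d + 1) := by ring
      _ ≤ 4 * d * ((4 * (d + 2) ^ h₀) ^ (d + 1) * D ^ i) := Nat.mul_le_mul_left _ this
      _ = _ := by rw [hc]; ring
  have G2 : (K : ℝ) ≤ G := by
    have : K ≤ 4 ^ (2 * K) ^ (d + 1) := (Nat.lt_pow_self (by norm_num)).le.trans
      (Nat.pow_le_pow_right (by norm_num) ((by omega : K ≤ 2 * K).trans (Nat.le_self_pow (by omega) _)))
    rw [hG]
    exact_mod_cast this
  have n0 : (0 : ℝ) < n := by exact_mod_cast hn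
  have z1 : n * z ^ d ≤ 1 := by nlinarith only [hz]
  have z2 : z ≤ 1 / 2 := by
    simpa only [one_div, one_mul] using s3 z 1 z0.le zero_le_one z1 (by simpa only [one_pow] using one_le_pow₀ one_le_two)
  have z3 : z ^ d ≤ z ^ 2 := pow_le_pow_of_le_one z0.le (by linarith only [z0, z2]) hd
  set p := (1 + ε) * (d / (d + 1) * z) with hp
  have p0 : 0 ≤ p := by positivity
  have p1 : p ≤ 2 * z := mul_le_mul (by linarith only [h1]) (mul_le_of_le_one_left z0.le
    (div_le_one_of_le₀ (by linarith only [z0, z2]) (by positivity))) (by positivity) zero_le_two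
  have N1 : 1 ≤ n.choose (d + 1) * z ^ 2 := hz ▸ (by rw [← mul_assoc]; gcongr)
  have y4 : 4 * ((A + 1) * (w : ℝ)) ≤ y (h₀ + i) := by
    refine le_trans ?_ (y3 i)
    have : 4 * ((A + 1) * w) ≤ (2 * D) ^ i := by
      calc _ ≤ 4 * ((A + 1) * (D ^ (i + 1) * c)) := by gcongr
        _ = i₀ * D ^ i := by rw [hi₀]; ring
        _ ≤ _ := by
          rw [mul_pow]
          exact Nat.mul_le_mul_right _ (i1.trans Nat.lt_two_pow_self.le)
    exact_mod_cast this
  have y5 : 1 ≤ y (h₀ + i) := le_trans (by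
    have : (1 : ℝ) ≤ w := by exact_mod_cast (by omega)
    nlinarith only [this]) y4
  have m1 : 1 / z ≤ n.choose (d + 1) * (z * y (h₀ + i)) := by
    rw [div_le_iff₀ z0]
    nlinarith only [N1, y5]
  refine (Pr_mono p0 (by linarith only [z2, p1]) fun S hS => hS.trans_le ?_).trans ((pr_few hd p0 (by linarith only [z2, p1])
    (K := K) (h := h₀ + i) le_rfl (x := fun h => z * y h) (fun h => mul_nonneg z0.le (y1 h))
    (by simpa only [y0, mul_zero] using p0) (fun h => ?_) (lt_of_lt_of_le (by positivity) m1)).trans ?_)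
  · rw [mul_div_assoc, ← Nat.cast_succ (Nat.log 2 n)]
    refine mul_le_mul_of_nonneg_left ?_ (by positivity)
    nlinarith only [z0, y4]
  · have a1 : (K : ℝ) ≤ (1 - l) * n := by
      have a2 := (le_div_iff₀ (by positivity)).1 (s2 z G z0.le (by positivity) z1 G1)
      calc (K : ℝ) = K * z ^ d * (d + 1) * n := by linear_combination (-K : ℝ) * hz
        _ ≤ G * z * (d + 1) * n := by
            gcongr
            exact pow_le_of_le_one z0.le (by linarith only [z0, z2]) (by omega)
        _ ≤ _ := by gcongr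
    have a3 : z * y (h + 1) = p + l * n * (z * y h) ^ (d + 1) := by
      rw [y2, hp, mul_pow]
      field_simp
      linear_combination (-l * z * y h ^ (d + 1)) * hz
    have := y1 h
    simp only [a3]
    gcongr
    linarith only [a1]
  · have a1 : 4 / (n.choose (d + 1) * (z * y (h₀ + i))) ≤ 4 * z :=
      (div_le_div_of_nonneg_left (by norm_num) (by positivity) m1).trans_eq (by field_simp)
    have a2 : n * p ^ d ≤ 2 ^ d := by
      calc _ ≤ n * (2 * z) ^ d := by gcongr
        _ = 2 ^ d * (n * z ^ d) := by ring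
        _ ≤ _ := mul_le_of_le_one_right (by positivity) z1
    have a3 := (le_div_iff₀ (by positivity)).1 (s1 z G z0.le (by positivity) z1 G1)
    calc _ ≤ (12 * z) * (G * Real.exp (2 ^ d)) := by gcongr; linarith only [p1, a1]
      _ ≤ _ := by linarith only [a3]

end Pool.Agent.MP_8f9e6e_pr

end

-- part Fin
section

/-! The jump lies in the window around the threshold. -/

open Finset Filter Topology

namespace Pool.Agent.MP_8f9e6e_pr

variable {n d : ℕ}

theorem pr_dev {p s : ℝ} (h0 : 0 ≤ p) (h1 : p ≤ 1) (hs : 0 < s) :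
    Pr p (fun S : Finset (Face n d) => s ≤ |(S.card : ℝ) - n.choose (d + 1) * p|) ≤
      n.choose (d + 1) * p / s ^ 2 := by
  classical
  have e := second_moment h0 (univ : Finset (Face n d)) (fun f => {f.1}) (d := d) (Ψ := 1)
    (fun f _ t ht => by rw [mem_singleton.1 ht, f.2]) fun f _ => by
      rw [sum_eq_single f (fun g hg e => absurd (disjoint_singleton.2 fun e' =>
        e (Subtype.ext e'.symm)) (mem_filter.1 hg).2) (by simp only [disjoint_singleton_left, mem_singleton, Decidable.not_not, mem_filter, mem_univ, and_self, not_true_eq_false, sdiff_self, bot_eq_empty, card_empty, pow_zero, one_ne_zero, imp_self])]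
      simp only [sdiff_self, bot_eq_empty, card_empty, pow_zero, Std.le_refl]
  have e2 : ∀ S : Finset (Face n d), (univ.filter fun f : Face n d => inS S f.1) = S := fun S => by
    ext f
    simp only [inS, Subtype.coe_eta, Set.powersetCard.card_eq, Nat.add_left_cancel_iff, exists_const, subset_univ, filter_mem_eq_of_subset]
  simp only [card_singleton, pow_one, sum_const, card_univ, card_face, nsmul_eq_mul, mul_one,
    mem_singleton, forall_eq, e2] at e
  refine (Pr_le_of h0 h1 (g := fun S => ((S.card : ℝ) - n.choose (d + 1) * p) ^ 2 / s ^ 2)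
    (fun S => by positivity) fun S hS => ?_).trans ?_
  · rw [one_le_div (by positivity), ← sq_abs (_ - _)]
    gcongr
  · simp only [← mul_div_assoc]
    rw [← sum_div]
    gcongr

theorem cnt_compl (E : Set (Ord n d)) :
    (cnt fun π : Ord n d => π ∉ E) = (1 - prob E) * cnt fun _ : Ord n d => True := by
  classical
  have e0 : Nonempty (Ord n d) := ⟨(Fintype.equivFinOfCardEq (card_face n d)).symm⟩
  have e1 : (cnt fun _ : Ord n d => True) = Nat.card (Ord n d) := by simp [cnt]
  have e2 : (cnt fun π : Ord n d => π ∉ E) = Eᶜ.ncard := by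
    rw [cnt, ← Set.ncard_coe_finset]
    congr 1
    ext π
    simp
  have e3 : (E.ncard : ℝ) + Eᶜ.ncard = Nat.card (Ord n d) := by
    exact_mod_cast Set.ncard_add_ncard_compl E
  have e4 : (0 : ℝ) < Nat.card (Ord n d) := by exact_mod_cast Nat.card_pos
  rw [e1, e2, prob, sub_mul, div_mul_cancel₀ _ e4.ne']
  linarith only [e3]

theorem window (hd : 2 ≤ d) {c C : ℝ} (hJ : Tendsto (fun n : ℕ =>
    prob {π : Ord n d | ∃ τ < n.choose (d + 1),
      c * (n : ℝ) ^ (-(1 / d : ℝ)) * n.choose (d + 1) ≤ τ ∧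
      frac π τ ≤ C * Real.log n * (n : ℝ) ^ (-(1 / d : ℝ)) ∧ frac π (τ + 1) = 1}) atTop (𝓝 1))
    {ε η : ℝ} (h0 : 0 < ε) (h1 : ε ≤ 1) (hη : 0 < η) : ∀ᶠ n : ℕ in atTop, ∀ z : ℝ, 0 < z →
      (d + 1) * (n * z ^ d) = 1 → 1 - η ≤ prob {π : Ord n d | ∃ τ < n.choose (d + 1),
        |(τ : ℝ) - d / (d + 1) * z * n.choose (d + 1)| ≤ ε * (d / (d + 1) * z * n.choose (d + 1)) ∧
        frac π τ ≤ C * Real.log n * (n : ℝ) ^ (-(1 / d : ℝ)) ∧ frac π (τ + 1) = 1} := by
  have d2 : (2 : ℝ) ≤ d := by exact_mod_cast hd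
  obtain ⟨A, hA⟩ := exists_nat_ge (|C| * (d + 1))
  filter_upwards [eventually_ge_atTop (d + 1), hJ.eventually_const_le (show 1 - η / 5 < 1 by linarith),
    sub_ev hd (half_pos h0) (by linarith only [h1]) (show 0 < η / 5 by positivity),
    sup_ev hd (half_pos h0) (by linarith only [h1]) (show 0 < η / 5 by positivity) A,
    ev_small hd one_half_pos, ev_choose hd (80 / (ε ^ 2 * η) * (d + 1))]
    with n hn s1 s2 s3 s4 s5 z z0 hz
  obtain ⟨f, -, hf⟩ := exists_subset_card_eq (s := (univ : Finset (Fin n))) (n := d + 1)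
    (by simpa only [card_univ, Fintype.card_fin, Order.add_one_le_iff] using hn)
  set N := n.choose (d + 1) with hN
  set q := d / (d + 1) * z with hq
  have N0 : (0 : ℝ) < N := by exact_mod_cast Nat.choose_pos hn
  have n1 : (1 : ℝ) ≤ n := by exact_mod_cast (by omega)
  have z1 : n * z ^ d ≤ 1 := by nlinarith only [hz]
  have z2 : z ≤ 1 / 2 := by
    simpa only [one_div, one_mul] using s4 z 1 z0.le zero_le_one z1 (by simpa only [one_pow] using one_le_pow₀ one_le_two)
  have q0 : 0 < q := by positivity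
  have q1 : q ≤ z := mul_le_of_le_one_left z0.le (div_le_one_of_le₀ (by linarith only [z0, z2]) (by positivity))
  have q2 : z / 2 ≤ q := by
    have : 1 / 2 ≤ (d : ℝ) / (d + 1) := by rw [le_div_iff₀ (by positivity)]; linarith only [d2]
    nlinarith only [z0, this]
  have q3 : 40 / (ε ^ 2 * η) ≤ q * N := by
    calc _ = z ^ d / 2 * (80 / (ε ^ 2 * η) * (d + 1) * n) := by
          linear_combination (-40 / (ε ^ 2 * η)) * hz
      _ ≤ _ := by
          gcongr
          exact le_trans (by gcongr; exact pow_le_of_le_one z0.le (by linarith only [z0, z2]) (by omega)) q2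
  have dev : ∀ r : ℝ, 0 ≤ r → r ≤ 2 → ∀ G : ℕ → Prop, (∀ b, G b → ε / 2 * (q * N) ≤ |b - N * (r * q)|) →
      Pr (r * q) (fun S : Finset (Face n d) => G S.card) ≤ η / 5 := fun r r0 r1 G hG => by
    refine (Pr_mono (by positivity) (by nlinarith only [z2, q0, q1, r1]) fun S hS => hG _ hS).trans
      ((pr_dev (by positivity) (by nlinarith only [z2, q0, q1, r1]) (by positivity)).trans ?_)
    rw [div_le_iff₀ (by positivity)] at q3 ⊢
    calc _ = r * (q * N) := by ring
      _ ≤ 40 / 20 * (q * N) := by gcongr; linarith only [r1]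
      _ ≤ q * N * (ε ^ 2 * η) / 20 * (q * N) := by gcongr
      _ = _ := by ring
  refine le_prob _ ?_
  set J := {π : Ord n d | ∃ τ < N, c * (n : ℝ) ^ (-(1 / d : ℝ)) * N ≤ τ ∧
      frac π τ ≤ C * Real.log n * (n : ℝ) ^ (-(1 / d : ℝ)) ∧ frac π (τ + 1) = 1} with hJ'
  let E₁ : Finset (Face n d) → Prop := fun S => Contr d {g | inS S g} f
  let E₂ : Finset (Face n d) → Prop := fun S =>
    (Set.ncard {f : Face n d | Contr d {g | inS S g} f.1} : ℝ) <
      N * ((A + 1) * (Nat.log 2 n + 1) * z)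
  have mono : ∀ (π : Ord n d) {s t : ℕ}, s ≤ t →
      (Set.ncard {f : Face n d | Contr d {g | inS (ini π s) g} f.1} : ℝ) ≤
        Set.ncard {f : Face n d | Contr d {g | inS (ini π t) g} f.1} := fun π s t h =>
    Nat.cast_le.2 (Set.ncard_le_ncard fun f hf => Contr.mono (fun _ => inS_mono (ini_mono π h)) hf)
  refine (Nat.cast_le.2 (cnt_union (univ : Finset (Fin 3)) ![fun π => π ∉ J,
    fun π => E₁ (ini π ⌈(1 - ε) * (q * N)⌉₊), fun π => E₂ (ini π ⌊(1 + ε) * (q * N)⌋₊)]
    fun π hπ => ?_)).trans ?_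
  · by_cases hj : π ∈ J
    swap
    · exact ⟨0, mem_univ _, hj⟩
    obtain ⟨τ, a1, -, a2, a3⟩ := hj
    by_cases b1 : (τ : ℝ) < (1 - ε) * (q * N)
    · refine ⟨1, mem_univ _, Contr.mono (fun _ => inS_mono (ini_mono π (Nat.lt_ceil.2 b1))) ?_⟩
      rw [frac, div_eq_one_iff_eq N0.ne', Nat.cast_inj, first_eq] at a3
      have := (Set.eq_univ_iff_ncard _).2 (a3.trans (by rw [Nat.card_eq_fintype_card, card_face]))
      exact Set.eq_univ_iff_forall.1 this ⟨f, hf⟩
    by_cases b2 : (1 + ε) * (q * N) < τ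
    swap
    · exact absurd ⟨τ, a1, abs_le.2 ⟨by linarith only [b1], by linarith only [b2]⟩, a2, a3⟩ hπ
    refine ⟨2, mem_univ _, (mono π (Nat.floor_le_of_le b2.le)).trans_lt ?_⟩
    rw [frac, div_le_iff₀ N0, first_eq] at a2
    rw [mul_comm]
    refine a2.trans_lt (mul_lt_mul_of_pos_right ?_ N0)
    have c1 : (n : ℝ) ^ (-(1 / d : ℝ)) ≤ (d + 1) * z := by
      refine le_of_pow_le_pow_left₀ (n := d) (by omega) (by positivity) ?_
      rw [Real.rpow_neg (by positivity), inv_pow, one_div,
        Real.rpow_inv_natCast_pow (by positivity) (by omega), mul_pow,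
        inv_le_iff_one_le_mul₀ (by positivity), mul_assoc, mul_comm (z ^ d)]
      exact hz.symm.trans_le
        (mul_le_mul_of_nonneg_right (le_self_pow₀ (by linarith only [d2, z0, z2]) (by omega)) (by positivity))
    have c2 : Real.log n ≤ Nat.log 2 n + 1 := by
      have : (n : ℝ) ≤ 2 ^ (Nat.log 2 n + 1) := by exact_mod_cast (log_spec (n := n) (by omega)).1.le
      have c3 := Real.log_le_log (by positivity) this
      rw [Real.log_pow] at c3
      push_cast at c3
      exact c3.trans (mul_le_of_le_one_right (by positivity) (by linarith only [Real.log_two_lt_d9, z0, z2]))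
    have := Real.log_nonneg n1
    calc _ ≤ |C| * (Nat.log 2 n + 1) * ((d + 1) * z) := by gcongr; exact le_abs_self C
      _ = |C| * (d + 1) * (Nat.log 2 n + 1) * z := by ring
      _ < _ := by gcongr; linarith only [hA, z0, z2]
  rw [Fin.sum_univ_three]
  push_cast
  have c1 := transfer (card_face n d) (p := (1 - ε / 2) * q) (mul_nonneg (by linarith only [h1, z0, z2]) q0.le)
    (by nlinarith only [h0, z2, q0, q1]) E₁ ⌈(1 - ε) * (q * N)⌉₊ (fun b => b < ⌈(1 - ε) * (q * N)⌉₊)
    fun b hb π h => Contr.mono (fun f => inS_mono (ini_mono π (not_lt.1 hb))) h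
  have c2 := transfer (card_face n d) (p := (1 + ε / 2) * q) (by positivity)
    (by nlinarith only [h0, h1, z2, q1]) E₂ ⌊(1 + ε) * (q * N)⌋₊ (fun b => ⌊(1 + ε) * (q * N)⌋₊ < b)
    fun b hb π h => (mono π (not_lt.1 hb)).trans_lt h
  have c3 := dev (1 - ε / 2) (by linarith only [h1, z0, z2]) (by linarith only [h0, z0, z2]) (fun b => b < ⌈(1 - ε) * (q * N)⌉₊)
    fun b hb => le_abs.2 (.inr (by linarith only [Nat.lt_ceil.1 hb]))
  have c4 := dev (1 + ε / 2) (by linarith only [h0, z0, z2]) (by linarith only [h1, z0, z2]) (fun b => ⌊(1 + ε) * (q * N)⌋₊ < b)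
    fun b hb => le_abs.2 (.inl (by linarith only [(Nat.floor_lt (by positivity)).1 hb]))
  have c5 := s2 z z0 hz f hf
  have c6 := s3 z z0 hz
  have c7 := cnt_compl J
  have c8 : (0 : ℝ) ≤ cnt fun _ : Ord n d => True := Nat.cast_nonneg _
  calc _ ≤ η / 5 * (cnt fun _ : Ord n d => True) + (η / 5 + η / 5) * (cnt fun _ : Ord n d => True) +
        (η / 5 + η / 5) * (cnt fun _ : Ord n d => True) :=
        add_le_add (add_le_add (c7.le.trans (by gcongr; linarith only [s1])) (c1.trans (by gcongr)))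
          (c2.trans (by gcongr))
    _ = _ := by ring

theorem diag {P : ℝ → ℕ → ℝ} (h1 : ∀ ε n, P ε n ≤ 1)
    (h : ∀ ε, 0 < ε → ε ≤ 1 → ∀ᶠ n in atTop, 1 - ε ≤ P ε n) :
    ∃ ε : ℕ → ℝ, Tendsto ε atTop (𝓝 0) ∧ Tendsto (fun n => P (ε n) n) atTop (𝓝 1) := by
  classical
  choose M hM using fun k : ℕ => eventually_atTop.1 (h (1 / (k + 1)) (by positivity)
    (div_le_one_of_le₀ (by linarith [Nat.cast_nonneg (α := ℝ) k]) (by positivity)))
  have e : Tendsto (fun n => 1 / (((Nat.findGreatest (fun k => M k ≤ n) n : ℕ) : ℝ) + 1)) atTop (𝓝 0) :=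
    tendsto_one_div_add_atTop_nhds_zero_nat.comp (tendsto_atTop.2 fun k => by
      filter_upwards [eventually_ge_atTop k, eventually_ge_atTop (M k)] with n a1 a2
      exact Nat.le_findGreatest a1 a2)
  refine ⟨_, e, tendsto_of_tendsto_of_tendsto_of_le_of_le' (by simpa only [one_div, sub_zero] using e.const_sub 1)
    tendsto_const_nhds ?_ (Eventually.of_forall fun n => h1 _ _)⟩
  filter_upwards [eventually_ge_atTop (M 0)] with n hn
  simpa only [one_div, tsub_le_iff_right] using hM _ n (Nat.findGreatest_spec (P := fun k => M k ≤ n) (Nat.zero_le n) hn)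

theorem jump_window (d : ℕ) (hd : 2 ≤ d) : ∃ C : ℝ, ∃ ε : ℕ → ℝ, Tendsto ε atTop (𝓝 0) ∧
    Tendsto (fun n : ℕ => prob {π : Ord n d | ∃ τ < n.choose (d + 1),
      |(τ : ℝ) - ((d + 1) ^ (d + 1) / d ^ d * n : ℝ) ^ (-(1 / d : ℝ)) * n.choose (d + 1)| ≤
        ε n * (((d + 1) ^ (d + 1) / d ^ d * n : ℝ) ^ (-(1 / d : ℝ)) * n.choose (d + 1)) ∧
      frac π τ ≤ C * Real.log n * (n : ℝ) ^ (-(1 / d : ℝ)) ∧ frac π (τ + 1) = 1}) atTop (𝓝 1) := by
  obtain ⟨c, -, C, hJ⟩ := jump d hd
  refine ⟨C, diag (P := fun ε n => prob {π : Ord n d | ∃ τ < n.choose (d + 1),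
      |(τ : ℝ) - ((d + 1) ^ (d + 1) / d ^ d * n : ℝ) ^ (-(1 / d : ℝ)) * n.choose (d + 1)| ≤
        ε * (((d + 1) ^ (d + 1) / d ^ d * n : ℝ) ^ (-(1 / d : ℝ)) * n.choose (d + 1)) ∧
      frac π τ ≤ C * Real.log n * (n : ℝ) ^ (-(1 / d : ℝ)) ∧ frac π (τ + 1) = 1})
    (fun _ _ => prob_le_one _) fun ε h0 h1 => ?_⟩
  have d0 : (0 : ℝ) < d := by exact_mod_cast (by omega)
  filter_upwards [eventually_ge_atTop 1, window hd hJ h0 h1 h0] with n hn h
  have n0 : (0 : ℝ) < n := by exact_mod_cast hn
  set q := ((d + 1) ^ (d + 1) / d ^ d * n : ℝ) ^ (-(1 / d : ℝ)) with hq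
  have q1 : q ^ d = ((d + 1) ^ (d + 1) / d ^ d * n : ℝ)⁻¹ := by
    rw [hq, Real.rpow_neg (by positivity), inv_pow, one_div,
      Real.rpow_inv_natCast_pow (by positivity) (by omega)]
  have := h ((d + 1) / d * q) (by positivity) (by rw [mul_pow, q1, div_pow]; field_simp; ring)
  rwa [show d / (d + 1) * ((d + 1) / d * q) = q by field_simp] at this

end Pool.Agent.MP_8f9e6e_pr

end
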